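import Pool.Agent.Lib.MP_a2d8aa_co.Kf.Defs

/-!
# KF-Hall (MP_a2d8aa_co)

Hall's theorem with `t` leaves for each centre: if every `X ⊆ T` has at least `t |X|` neighbours in
`L` then there are `L' ⊆ L` and `c : V → V` such that `c v ∈ T` is a neighbour of `v` for `v ∈ L'`
and every `a ∈ T` has exactly `t` vertices `v ∈ L'` with `c v = a`.

Proof. Mathlib: `Finset.all_card_le_biUnion_card_iff_exists_injective` with index type
`ι = {a // a ∈ T} × Fin t` and the sets `N(a, i) = {v ∈ L : v ~ a}`. For a finset `S` of indices,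
with `X` = the set of first components, `|S| ≤ t |X| ≤ |⋃ N(a, i)|`. The injective `f : ι → V`
gives `L' = image of f`, and for `v = f (a, i)` put `c v = a` (well defined by injectivity;
`c v = v` or anything elsewhere). Then `{v ∈ L' : c v = a} = {f (a, i) : i}` has `t` elements.
-/

set_option autoImplicit false

namespace Pool.Agent.Lib.MP_a2d8aa_co.Kf

variable {V : Type*}

open Classical in
theorem hall_leaves (G : SimpleGraph V) (T L : Finset V) (t : ℕ)
    (h : ∀ X ⊆ T, t * X.card ≤ (L.filter (fun v => ∃ a ∈ X, G.Adj v a)).card) :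
    ∃ L' ⊆ L, ∃ c : V → V, (∀ v ∈ L', c v ∈ T ∧ G.Adj v (c v)) ∧
      ∀ a ∈ T, (L'.filter (fun v => c v = a)).card = t := by
  let N : {a // a ∈ T} × Fin t → Finset V := fun p => L.filter fun v => G.Adj v p.1.1
  have hall : ∀ S : Finset ({a // a ∈ T} × Fin t), S.card ≤ (S.biUnion N).card := by
    intro S
    let X : Finset V := S.image fun p => p.1.1
    have hX : X ⊆ T := by
      intro a ha
      obtain ⟨p, _, rfl⟩ := Finset.mem_image.1 ha
      exact p.1.2
    have h1 : S.card ≤ t * X.card := by
      have h2 : S.card ≤ ((X ×ˢ (Finset.univ : Finset (Fin t)))).card := by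
        refine Finset.card_le_card_of_injOn (fun p => (p.1.1, p.2)) ?_ ?_
        · intro p hp
          rw [Finset.mem_coe, Finset.mem_product]
          exact ⟨Finset.mem_image_of_mem _ hp, Finset.mem_univ _⟩
        · intro p _ q _ hpq
          have h3 : (p.1.1, p.2) = (q.1.1, q.2) := hpq
          rw [Prod.mk.injEq] at h3
          exact Prod.ext (Subtype.ext h3.1) h3.2
      rw [Finset.card_product, Finset.card_univ, Fintype.card_fin, Nat.mul_comm] at h2
      exact h2
    refine h1.trans ((h X hX).trans (Finset.card_le_card ?_))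
    intro v hv
    rw [Finset.mem_filter] at hv
    obtain ⟨hvL, a, ha, hadj⟩ := hv
    obtain ⟨p, hp, rfl⟩ := Finset.mem_image.1 ha
    exact Finset.mem_biUnion.2 ⟨p, hp, Finset.mem_filter.2 ⟨hvL, hadj⟩⟩
  obtain ⟨f, hf, hfN⟩ := (Finset.all_card_le_biUnion_card_iff_exists_injective N).1 hall
  have hfL : ∀ p, f p ∈ L ∧ G.Adj (f p) p.1.1 := fun p => Finset.mem_filter.1 (hfN p)
  let c : V → V := fun v => if hv : ∃ p, f p = v then (Classical.choose hv).1.1 else v
  have hc : ∀ p, c (f p) = p.1.1 := by
    intro p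
    have hv : ∃ q, f q = f p := ⟨p, rfl⟩
    have h1 : c (f p) = (Classical.choose hv).1.1 := dif_pos hv
    rw [h1, hf (Classical.choose_spec hv)]
  refine ⟨Finset.univ.image f, ?_, c, ?_, ?_⟩
  · intro v hv
    obtain ⟨p, _, rfl⟩ := Finset.mem_image.1 hv
    exact (hfL p).1
  · intro v hv
    obtain ⟨p, _, rfl⟩ := Finset.mem_image.1 hv
    rw [hc p]
    exact ⟨p.1.2, (hfL p).2⟩
  · intro a ha
    have h1 : (Finset.univ.image f).filter (fun v => c v = a) =
        (Finset.univ : Finset (Fin t)).image fun i => f (⟨a, ha⟩, i) := by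
      ext v
      rw [Finset.mem_filter, Finset.mem_image, Finset.mem_image]
      constructor
      · rintro ⟨⟨p, _, rfl⟩, h2⟩
        rw [hc p] at h2
        refine ⟨p.2, Finset.mem_univ _, ?_⟩
        congr 1
        exact Prod.ext (Subtype.ext h2.symm) rfl
      · rintro ⟨i, _, rfl⟩
        exact ⟨⟨_, Finset.mem_univ _, rfl⟩, hc _⟩
    rw [h1, Finset.card_image_of_injective, Finset.card_univ, Fintype.card_fin]
    intro i j hij
    have h2 := hf hij
    exact (Prod.mk.inj h2).2

end Pool.Agent.Lib.MP_a2d8aa_co.Kf
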