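import Pool.Agent.Lib.MP_a2d8aa_co.Kf.Defs

/-!
# KF-Kst (MP_a2d8aa_co)

A Kővári–Sós–Turán lemma. Suppose any `s` vertices of `U` have at most `k / M` common neighbours
in `U`, `W, Y ⊆ U`, `|W| ≤ R k`, and every `y ∈ Y` has at least `k / q` neighbours in `W`. If
`M > 2 q C(2 s q R, s)` then `|Y| < t := 2 s q R`.

Proof. Otherwise shrink `Y` to a subset with exactly `t` elements
(`Finset.exists_subset_card_eq`). For `w ∈ W` let `e(w) = |{y ∈ Y : y ~ w}|`. Double counting:
`q ∑_{w ∈ W} e(w) = q ∑_{y ∈ Y} dg G W y ≥ t k = 2 s q R k`, so `∑_{w ∈ W} e(w) ≥ 2 s R k`.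
The `w` with `e(w) < s` contribute at most `s |W| ≤ s R k`, so with `W₁ = {w ∈ W : e(w) ≥ s}` one
has `∑_{w ∈ W₁} e(w) ≥ s R k`, and `e(w) ≤ t`, hence `t |W₁| ≥ s R k`, that is `2 q |W₁| ≥ k`.
Every `w ∈ W₁` is a common neighbour of some `s`-subset `X` of `Y`; summing over all
`X ∈ Y.powersetCard s` (there are `C(t, s)` of them, and each has `M |N_U(X)| ≤ k`) gives
`M |W₁| ≤ C(t, s) k`. So `M k ≤ 2 q M |W₁| ≤ 2 q C(t, s) k`, contradiction to `k ≥ 1`.
-/

set_option autoImplicit false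

namespace Pool.Agent.Lib.MP_a2d8aa_co.Kf

variable {V : Type*}

theorem kst {G : SimpleGraph V} {U W Y : Finset V} {s M k q R : ℕ} (hs : 1 ≤ s) (hq : 1 ≤ q)
    (hR : 1 ≤ R) (hk : 1 ≤ k) (hM : 2 * q * (2 * s * q * R).choose s < M) (hF : Few G U s M k)
    (hW : W ⊆ U) (hY : Y ⊆ U) (hWR : W.card ≤ R * k) (hYq : ∀ y ∈ Y, k ≤ q * dg G W y) :
    Y.card < 2 * s * q * R := by
  classical
  by_contra hcon
  push Not at hcon
  obtain ⟨Z, hZY, hZt⟩ := Finset.exists_subset_card_eq hcon
  let e : V → ℕ := fun w => (Z.filter fun y => G.Adj y w).card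
  let W₁ : Finset V := W.filter fun w => s ≤ e w
  have hdc : ∑ y ∈ Z, dg G W y = ∑ w ∈ W, e w := by
    have h := Finset.sum_card_bipartiteAbove_eq_sum_card_bipartiteBelow (s := Z) (t := W)
      (fun y w => G.Adj y w)
    have h1 : ∀ y, dg G W y = (Finset.bipartiteAbove (fun y w => G.Adj y w) W y).card := by
      intro y
      unfold dg
      refine congrArg Finset.card (Finset.ext fun w => ?_)
      rw [mem_nb, Finset.mem_bipartiteAbove]
    rw [Finset.sum_congr rfl fun y _ => h1 y, h]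
    refine Finset.sum_congr rfl fun w _ => ?_
    rfl
  have h1 : 2 * s * q * R * k ≤ q * ∑ w ∈ W, e w := by
    rw [← hdc, Finset.mul_sum, ← hZt, ← smul_eq_mul]
    exact Finset.card_nsmul_le_sum Z _ _ fun y hy => hYq y (hZY hy)
  have h2 : ∑ w ∈ W, e w ≤ 2 * s * q * R * W₁.card + s * W.card := by
    have h3 : ∀ w ∈ W, e w ≤ (if s ≤ e w then 2 * s * q * R else 0) + s := by
      intro w _
      by_cases h : s ≤ e w
      · rw [if_pos h]
        have : e w ≤ Z.card := Finset.card_filter_le _ _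
        omega
      · rw [if_neg h]
        omega
    refine le_trans (Finset.sum_le_sum h3) ?_
    rw [Finset.sum_add_distrib, ← Finset.sum_filter, Finset.sum_const, Finset.sum_const,
      smul_eq_mul, smul_eq_mul, mul_comm W₁.card, mul_comm W.card]
  have h4 : M * W₁.card ≤ (2 * s * q * R).choose s * k := by
    have h5 : W₁ ⊆ (Z.powersetCard s).biUnion
        (fun X => U.filter (fun w => ∀ x ∈ X, G.Adj x w)) := by
      intro w hw
      obtain ⟨hwW, hws⟩ := Finset.mem_filter.1 hw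
      obtain ⟨X, hX, hXs⟩ := Finset.exists_subset_card_eq hws
      rw [Finset.mem_biUnion]
      refine ⟨X, ?_, ?_⟩
      · rw [Finset.mem_powersetCard]
        exact ⟨hX.trans (Finset.filter_subset _ _), hXs⟩
      · rw [Finset.mem_filter]
        exact ⟨hW hwW, fun x hx => (Finset.mem_filter.1 (hX hx)).2⟩
    have h6 : W₁.card ≤ ∑ X ∈ Z.powersetCard s,
        (U.filter (fun w => ∀ x ∈ X, G.Adj x w)).card :=
      le_trans (Finset.card_le_card h5) Finset.card_biUnion_le
    calc M * W₁.card ≤ M * ∑ X ∈ Z.powersetCard s,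
        (U.filter (fun w => ∀ x ∈ X, G.Adj x w)).card := Nat.mul_le_mul_left _ h6
      _ = ∑ X ∈ Z.powersetCard s, M * (U.filter (fun w => ∀ x ∈ X, G.Adj x w)).card :=
        Finset.mul_sum _ _ _
      _ ≤ ∑ X ∈ Z.powersetCard s, k := by
        refine Finset.sum_le_sum fun X hX => ?_
        obtain ⟨hXZ, hXs⟩ := Finset.mem_powersetCard.1 hX
        convert hF X ((hXZ.trans hZY).trans hY) hXs
      _ = (2 * s * q * R).choose s * k := by
        rw [Finset.sum_const, Finset.card_powersetCard, hZt, smul_eq_mul]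
  have h7 : k ≤ 2 * q * W₁.card := by
    have h8 : 2 * s * q * R * k ≤ q * (2 * s * q * R * W₁.card) + q * s * (R * k) := by
      calc 2 * s * q * R * k ≤ q * ∑ w ∈ W, e w := h1
        _ ≤ q * (2 * s * q * R * W₁.card + s * W.card) := Nat.mul_le_mul_left _ h2
        _ = q * (2 * s * q * R * W₁.card) + q * s * W.card := by ring
        _ ≤ q * (2 * s * q * R * W₁.card) + q * s * (R * k) := by gcongr
    have h9 : (s * q * R) * k ≤ (s * q * R) * (2 * q * W₁.card) := by nlinarith [h8]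
    exact Nat.le_of_mul_le_mul_left h9 (by positivity)
  have h10 : M * k ≤ 2 * q * (2 * s * q * R).choose s * k := by
    calc M * k ≤ M * (2 * q * W₁.card) := Nat.mul_le_mul_left _ h7
      _ = 2 * q * (M * W₁.card) := by ring
      _ ≤ 2 * q * ((2 * s * q * R).choose s * k) := Nat.mul_le_mul_left _ h4
      _ = 2 * q * (2 * s * q * R).choose s * k := by ring
  have h11 : M ≤ 2 * q * (2 * s * q * R).choose s := Nat.le_of_mul_le_mul_right h10 hk
  omega

end Pool.Agent.Lib.MP_a2d8aa_co.Kf
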