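import Pool.Agent.Lib.MP_a2d8aa_co.Kf.Pos
import Pool.Agent.Lib.MP_a2d8aa_co.Kf.Kst
import Pool.Agent.Lib.MP_a2d8aa_co.Kf.Hall

/-!
# KF-CaseA (MP_a2d8aa_co)

Many vertices with many neighbours in a small set `S`: stars centred in `S`.
Put `t₀ = 2 s 4 r`. `S, L ⊆ U` disjoint, every `v ∈ L` has at least `k / 2` neighbours in `S`, and
`t₀ |S| ≤ |L|`, `L` nonempty. Then `G` has a star minor of minimum degree at least `r k`.

Proof. For `T ⊆ S` let `L_T = {v ∈ L : k ≤ 2 dg G T v}`; `L_S = L`. `S` is nonempty (a vertex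
`v ∈ L` has `2 dg G S v ≥ k ≥ 4`). Let `T ⊆ S` be nonempty with `t₀ |T| ≤ |L_T|` and of least
cardinality among these. (e.g. `Finset.exists_min_image` on the filtered powerset, or strong
induction.)
Hall's condition for `T`, `L_T`, `t₀`: let `X ⊆ T`, `X ≠ ∅`, `Y = T \ X`. If `v ∈ L_T \ L_Y` then
`dg G Y v < dg G T v`, so `v` has a neighbour in `X`. If `Y` is nonempty then `Y ≠ T` and
minimality gives `|L_Y| < t₀ |Y|`; if `Y = ∅` then `L_Y = ∅` as `k ≥ 1`. In both cases
`|L_Y| ≤ t₀ |Y|`, so `X` has at least `|L_T| - |L_Y| ≥ t₀ |T| - t₀ |Y| = t₀ |X|` neighbours in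
`L_T`. (`X = ∅` is trivial.) By `hall_leaves` there are `L' ⊆ L_T` and `c`. `IsStar G T L' c`
(`T ⊆ S` and `L' ⊆ L` are disjoint).
Minimum degree of the quotient on `T`: let `a ∈ T` and suppose `dg (quo G L' c) T a < r k`. Put
`W = nb (quo G L' c) T a ⊆ T ⊆ U`, `|W| ≤ r k`, and `Y = {v ∈ L' : c v = a}`, `|Y| = t₀`. For
`v ∈ Y` every neighbour `b ∈ T`, `b ≠ a`, of `v` lies in `W` (`v` is in the star of `a`, `b` is in
the star of `b`), so `dg G W v ≥ dg G T v - 1`, `4 dg G W v ≥ 4 dg G T v - 4 ≥ 2 k - 4 ≥ k`.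
`kst` with `q = 4`, `R = r` gives `|Y| < 2 s 4 r = t₀`, contradiction. So `hasMin_of_star` applies
with `W = T`.
-/

set_option autoImplicit false

namespace Pool.Agent.Lib.MP_a2d8aa_co.Kf

variable {n : ℕ}

private theorem filt_card {α : Type*} (t : Finset α) (p : α → Prop) (i1 i2 : DecidablePred p) :
    (@Finset.filter α p i1 t).card = (@Finset.filter α p i2 t).card := by
  have h : i1 = i2 := Subsingleton.elim _ _
  rw [h]

theorem case_A {G : SimpleGraph (Fin n)} {U S L : Finset (Fin n)} {s M k r : ℕ} (hs : 1 ≤ s)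
    (hr : 1 ≤ r) (hk : 4 ≤ k) (hM : 2 * 4 * (2 * s * 4 * r).choose s < M)
    (hF : Few G U s M k) (hS : S ⊆ U) (hL : L ⊆ U) (hdis : Disjoint S L) (hne : L.Nonempty)
    (hdeg : ∀ v ∈ L, k ≤ 2 * dg G S v) (hcard : 2 * s * 4 * r * S.card ≤ L.card) :
    HasMin G (r * k) := by
  classical
  obtain ⟨LT, hLT⟩ : ∃ LT : Finset (Fin n) → Finset (Fin n),
      LT = fun T => L.filter (fun v => k ≤ 2 * dg G T v) := ⟨_, rfl⟩
  have hmemLT : ∀ T v, v ∈ LT T ↔ v ∈ L ∧ k ≤ 2 * dg G T v := by
    intro T v
    rw [hLT]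
    simp only [Finset.mem_filter]
  have hSne : S.Nonempty := by
    obtain ⟨v, hv⟩ := hne
    have h1 := hdeg v hv
    have h2 : 0 < (nb G S v).card := by
      have : dg G S v = (nb G S v).card := rfl
      omega
    obtain ⟨w, hw⟩ := Finset.card_pos.mp h2
    exact ⟨w, (mem_nb.mp hw).1⟩
  obtain ⟨F, hFdef⟩ : ∃ F : Finset (Finset (Fin n)), F = S.powerset.filter
      (fun T => T.Nonempty ∧ 2 * s * 4 * r * T.card ≤ (LT T).card) := ⟨_, rfl⟩
  have hFne : F.Nonempty := by
    refine ⟨S, ?_⟩
    rw [hFdef, Finset.mem_filter, Finset.mem_powerset]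
    refine ⟨Finset.Subset.refl _, hSne, ?_⟩
    have : LT S = L := by
      ext v
      rw [hmemLT]
      exact ⟨fun h => h.1, fun h => ⟨h, hdeg v h⟩⟩
    rw [this]
    exact hcard
  obtain ⟨T, hTF, hTmin⟩ := Finset.exists_min_image F Finset.card hFne
  rw [hFdef, Finset.mem_filter, Finset.mem_powerset] at hTF
  obtain ⟨hTS, hTne, hTcard⟩ := hTF
  have hall : ∀ X ⊆ T, 2 * s * 4 * r * X.card ≤
      ((LT T).filter (fun v => ∃ a ∈ X, G.Adj v a)).card := by
    intro X hX
    rcases X.eq_empty_or_nonempty with hXe | hXne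
    · rw [hXe]
      simp
    · have hYT : (T \ X).card + X.card = T.card := Finset.card_sdiff_add_card_eq_card hX
      have hXpos : 0 < X.card := Finset.card_pos.mpr hXne
      have hLY : (LT (T \ X)).card ≤ 2 * s * 4 * r * (T \ X).card := by
        rcases (T \ X).eq_empty_or_nonempty with hYe | hYne
        · have : LT (T \ X) = ∅ := by
            rw [Finset.eq_empty_iff_forall_notMem]
            intro v hv
            rw [hmemLT, hYe] at hv
            have h1 : dg G ∅ v = 0 := by
              unfold dg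
              rw [Finset.card_eq_zero, Finset.eq_empty_iff_forall_notMem]
              intro w hw
              exact Finset.notMem_empty w (mem_nb.mp hw).1
            rw [h1] at hv
            omega
          rw [this]
          simp
        · by_contra hcon
          push Not at hcon
          have hYF : (T \ X) ∈ F := by
            rw [hFdef, Finset.mem_filter, Finset.mem_powerset]
            exact ⟨Finset.sdiff_subset.trans hTS, hYne, hcon.le⟩
          have := hTmin _ hYF
          omega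
      have hsub : LT T \ LT (T \ X) ⊆ (LT T).filter (fun v => ∃ a ∈ X, G.Adj v a) := by
        intro v hv
        rw [Finset.mem_sdiff, hmemLT, hmemLT] at hv
        rw [Finset.mem_filter, hmemLT]
        refine ⟨hv.1, ?_⟩
        by_contra hcon
        push Not at hcon
        apply hv.2
        refine ⟨hv.1.1, hv.1.2.trans ?_⟩
        have h1 : nb G T v ⊆ nb G (T \ X) v := by
          intro w hw
          rw [mem_nb] at hw ⊢
          refine ⟨Finset.mem_sdiff.mpr ⟨hw.1, fun h => hcon w h hw.2⟩, hw.2⟩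
        have h2 := Finset.card_le_card h1
        unfold dg
        omega
      have h1 := Finset.card_le_card hsub
      have h2 := Finset.le_card_sdiff (LT (T \ X)) (LT T)
      have h3 : 2 * s * 4 * r * T.card = 2 * s * 4 * r * (T \ X).card + 2 * s * 4 * r * X.card := by
        rw [← hYT]
        ring
      omega
  obtain ⟨L', hL', c, hc1, hc2⟩ := hall_leaves G T (LT T) (2 * s * 4 * r)
    (fun X hX => (hall X hX).trans (filt_card _ _ _ _).le)
  have hL'L : L' ⊆ L := fun v hv => ((hmemLT T v).mp (hL' hv)).1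
  have hstar : IsStar G T L' c := ⟨(hdis.mono hTS hL'L), hc1⟩
  refine hasMin_of_star hstar (Finset.Subset.refl T) hTne ?_
  intro a ha
  by_contra hlt
  push Not at hlt
  have hWT : nb (quo G L' c) T a ⊆ T := fun w hw => (mem_nb.mp hw).1
  have hcardY : 2 * s * 4 * r ≤ (L'.filter (fun v => c v = a)).card := by
    rw [← hc2 a ha]
    exact (filt_card _ _ _ _).le
  have hY : (L'.filter (fun v => c v = a)) ⊆ U := fun v hv =>
    hL (hL'L (Finset.mem_filter.mp hv).1)
  have key := kst (G := G) (U := U) (W := nb (quo G L' c) T a)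
    (Y := L'.filter (fun v => c v = a)) (s := s) (M := M) (k := k) (q := 4) (R := r) hs
    (by norm_num) hr (by omega) hM hF ((hWT.trans hTS).trans hS) hY (by
      have : dg (quo G L' c) T a = (nb (quo G L' c) T a).card := rfl
      omega) ?_
  · omega
  · intro y hy
    rw [Finset.mem_filter] at hy
    have h1 := ((hmemLT T y).mp (hL' hy.1)).2
    have h2 : (nb G T y).erase a ⊆ nb G (nb (quo G L' c) T a) y := by
      intro b hb
      rw [Finset.mem_erase, mem_nb] at hb
      obtain ⟨hba, hbT, hyb⟩ := hb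
      rw [mem_nb, mem_nb]
      exact ⟨⟨hbT, hba.symm, y, b, Or.inr hy, Or.inl rfl, hyb⟩, hyb⟩
    have h3 := Finset.card_le_card h2
    have h4 := Finset.pred_card_le_card_erase (s := nb G T y) (a := a)
    have h5 : dg G T y = (nb G T y).card := rfl
    have h6 : dg G (nb (quo G L' c) T a) y = (nb G (nb (quo G L' c) T a) y).card := rfl
    omega

end Pool.Agent.Lib.MP_a2d8aa_co.Kf
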