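import Pool.Agent.Lib.MP_a2d8aa_co.Kf.Prob

/-!
# KF-Choice (MP_a2d8aa_co)

Every `v ∈ L` chooses one of its neighbours in `C` at random (there are at least `g ≥ 1` of them);
few ordered edges of `L` are contracted, and few pairs of non-contracted ones have the same image.

Proof. `Ex` with `ι = β = V`, `p v b = [b ∈ nb G C v] / |nb G C v|` for `v ∈ L` and
`p v b = [b = v]` for `v ∉ L`. For `v ≠ v'` in `L`, `ex_eq` gives
`E [c v = c v'] = |nb C v ∩ nb C v'| / (|nb C v| |nb C v'|)`, which is `≤ 1/g` (the intersection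
has at most `|nb C v|` elements) and `≤ cd G W v v' / g²` (`C ⊆ W`).
(a) `E |coll| ≤ |eds G L| / g ≤ |W| D / g`.
(b) Pairs `e = (u, v)`, `e' = (u', v')` in `ncs`, `e ≠ e'`, with `c u = c u'`, `c v = c v'`:
 - `u = u'`, `v ≠ v'`: at most `∑_{v ≠ v'} #{u : u ~ v, u ~ v'} [c v = c v']`, expectation
   `≤ ∑_{v ≠ v' in W} cd(v,v')²/g² = P4/g²`;
 - `v = v'`, `u ≠ u'`: the same;
 - `u ≠ u'`, `v ≠ v'`: here `u ≠ v'` (else `c v = c v' = c u`, but `e` is not contracted) and
   `u' ≠ v` (else `c u = c u' = c v`), `u ≠ v`, `u' ≠ v'` (adjacent), so `u, u', v, v'` are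
   different and `ex_eq_eq` bounds the expectation of `[c u = c u' ∧ c v = c v']` by
   `cd(u,u') cd(v,v') / g⁴`; the sum over all such pairs of edges is at most `P6/g⁴`.
So `E (|coll| + |prs|) ≤ |W| D/g + 2 P4/g² + P6/g⁴`, and `ex_exists_le` gives `c` in the support.
-/

set_option autoImplicit false

namespace Pool.Agent.Lib.MP_a2d8aa_co.Kf

private theorem sum_eds {V : Type*} (G : SimpleGraph V) (W : Finset V) (f : V × V → ℝ) :
    ∑ e ∈ eds G W, f e = ∑ u ∈ W, ∑ v ∈ nb G W u, f (u, v) := by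
  classical
  unfold eds nb
  rw [Finset.sum_filter, Finset.sum_product]
  refine Finset.sum_congr rfl (fun u _ => ?_)
  rw [Finset.sum_filter]

private theorem eds_mono {V : Type*} (G : SimpleGraph V) {L W : Finset V} (h : L ⊆ W) :
    eds G L ⊆ eds G W := by
  classical
  unfold eds
  intro e he
  rw [Finset.mem_filter, Finset.mem_product] at he ⊢
  exact ⟨⟨h he.1.1, h he.1.2⟩, he.2⟩

private theorem card_eds {V : Type*} (G : SimpleGraph V) (W : Finset V) (D : ℕ)
    (hD : ∀ v ∈ W, dg G W v ≤ D) : ((eds G W).card : ℝ) ≤ W.card * (D : ℝ) := by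
  have h1 : ((eds G W).card : ℝ) = ∑ e ∈ eds G W, (1 : ℝ) := by simp
  rw [h1, sum_eds G W (fun _ => 1)]
  have h2 : ∀ u ∈ W, ∑ v ∈ nb G W u, (1 : ℝ) ≤ (D : ℝ) := by
    intro u hu
    have h3 : ∑ v ∈ nb G W u, (1 : ℝ) = (dg G W u : ℝ) := by simp [dg]
    rw [h3]
    exact_mod_cast hD u hu
  calc ∑ u ∈ W, ∑ v ∈ nb G W u, (1 : ℝ) ≤ ∑ u ∈ W, (D : ℝ) := Finset.sum_le_sum h2
    _ = W.card * (D : ℝ) := by simp

open Classical in
/-- the bound for the expectation of the indicator of a pair in `prs` -/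
private noncomputable def F {V : Type*} (G : SimpleGraph V) (W : Finset V) (a : ℝ)
    (x : (V × V) × (V × V)) : ℝ :=
  (if x.1.1 = x.2.1 ∧ x.1.2 ≠ x.2.2 then (cd G W x.1.2 x.2.2 : ℝ) * a else 0) +
  (if x.1.2 = x.2.2 ∧ x.1.1 ≠ x.2.1 then (cd G W x.1.1 x.2.1 : ℝ) * a else 0) +
  (if x.1.1 ≠ x.2.1 ∧ x.1.2 ≠ x.2.2 then
    ((cd G W x.1.1 x.2.1 : ℝ) * a) * ((cd G W x.1.2 x.2.2 : ℝ) * a) else 0)

private theorem F_nonneg {V : Type*} (G : SimpleGraph V) (W : Finset V) (a : ℝ) (ha : 0 ≤ a)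
    (x : (V × V) × (V × V)) : 0 ≤ F G W a x := by
  classical
  unfold F
  have h1 : 0 ≤ (cd G W x.1.2 x.2.2 : ℝ) * a := mul_nonneg (Nat.cast_nonneg _) ha
  have h2 : 0 ≤ (cd G W x.1.1 x.2.1 : ℝ) * a := mul_nonneg (Nat.cast_nonneg _) ha
  have h3 := mul_nonneg h2 h1
  refine add_nonneg (add_nonneg ?_ ?_) ?_
  · split_ifs
    · exact h1
    · exact le_refl _
  · split_ifs
    · exact h2
    · exact le_refl _
  · split_ifs
    · exact h3
    · exact le_refl _

private theorem sum_A {V : Type*} (G : SimpleGraph V) (W : Finset V) (a : ℝ) :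
    ∑ u ∈ W, ∑ v ∈ nb G W u, ∑ w ∈ (by classical exact (nb G W u).erase v),
      (cd G W v w : ℝ) * a = P4 G W * a := by
  classical
  have hcd : ∀ v w : V, (cd G W v w : ℝ) =
      ∑ u ∈ W, if (G.Adj v u ∧ G.Adj w u) then (1 : ℝ) else 0 := by
    intro v w
    have h1 : nb G W v ∩ nb G W w = W.filter (fun u => G.Adj v u ∧ G.Adj w u) := by
      ext u
      simp only [Finset.mem_inter, mem_nb, Finset.mem_filter]
      tauto
    unfold cd
    have h2 : ((W.filter (fun u => G.Adj v u ∧ G.Adj w u)).card : ℝ) =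
        ∑ u ∈ W, if (G.Adj v u ∧ G.Adj w u) then (1 : ℝ) else 0 := by
      simp
    rw [← h2, ← h1]
  have hL : ∀ u ∈ W, ∑ v ∈ nb G W u, ∑ w ∈ (nb G W u).erase v, (cd G W v w : ℝ) * a =
      ∑ v ∈ W, ∑ w ∈ W.erase v, (if (G.Adj v u ∧ G.Adj w u) then (1 : ℝ) else 0) *
        ((cd G W v w : ℝ) * a) := by
    intro u hu
    have h3 : ∀ v ∈ W, ∑ w ∈ W.erase v, (if (G.Adj v u ∧ G.Adj w u) then (1 : ℝ) else 0) *
        ((cd G W v w : ℝ) * a) =
        if G.Adj u v then ∑ w ∈ (nb G W u).erase v, (cd G W v w : ℝ) * a else 0 := by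
      intro v hv
      by_cases huv : G.Adj u v
      · rw [if_pos huv]
        have h4 : (nb G W u).erase v = (W.erase v).filter (fun w => G.Adj u w) := by
          ext w
          simp only [Finset.mem_erase, mem_nb, Finset.mem_filter]
          tauto
        rw [h4, Finset.sum_filter]
        refine Finset.sum_congr rfl (fun w _ => ?_)
        by_cases huw : G.Adj u w
        · rw [if_pos ⟨huv.symm, huw.symm⟩, if_pos huw, one_mul]
        · rw [if_neg (fun h => huw h.2.symm), if_neg huw, zero_mul]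
      · rw [if_neg huv]
        refine Finset.sum_eq_zero (fun w _ => ?_)
        rw [if_neg (fun h => huv h.1.symm), zero_mul]
    rw [Finset.sum_congr rfl h3]
    unfold nb
    rw [Finset.sum_filter]
  rw [Finset.sum_congr rfl hL]
  rw [Finset.sum_comm]
  unfold P4
  rw [Finset.sum_mul]
  refine Finset.sum_congr rfl (fun v _ => ?_)
  rw [Finset.sum_comm, Finset.sum_mul]
  refine Finset.sum_congr rfl (fun w _ => ?_)
  rw [← Finset.sum_mul, ← hcd v w]
  ring

private theorem sum_F {V : Type*} (G : SimpleGraph V) (W : Finset V) (a : ℝ) :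
    ∑ x ∈ eds G W ×ˢ eds G W, F G W a x = 2 * (P4 G W * a) + P6 G W * (a * a) := by
  classical
  rw [Finset.sum_product]
  unfold F
  simp only [Finset.sum_add_distrib]
  have h1 : ∑ e ∈ eds G W, ∑ e' ∈ eds G W,
      (if e.1 = e'.1 ∧ e.2 ≠ e'.2 then (cd G W e.2 e'.2 : ℝ) * a else 0) = P4 G W * a := by
    rw [← sum_A G W a, sum_eds G W]
    refine Finset.sum_congr rfl (fun u hu => Finset.sum_congr rfl (fun v hv => ?_))
    rw [sum_eds G W, Finset.sum_eq_single u]
    · dsimp only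
      rw [← Finset.filter_ne', Finset.sum_filter]
      refine Finset.sum_congr rfl (fun w _ => ?_)
      by_cases h : w = v
      · rw [if_neg (fun h' => h'.2 h.symm), if_neg (fun h' => h' h)]
      · rw [if_pos ⟨rfl, fun h' => h h'.symm⟩, if_pos h]
    · intro u' _ hu'
      refine Finset.sum_eq_zero (fun w _ => ?_)
      rw [if_neg (fun h => hu' h.1.symm)]
    · intro h
      exact absurd hu h
  have h2 : ∑ e ∈ eds G W, ∑ e' ∈ eds G W,
      (if e.2 = e'.2 ∧ e.1 ≠ e'.1 then (cd G W e.1 e'.1 : ℝ) * a else 0) = P4 G W * a := by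
    rw [← h1]
    have hsw : ∀ f : V × V → ℝ, ∑ e ∈ eds G W, f e = ∑ e ∈ eds G W, f (e.2, e.1) := by
      intro f
      refine Finset.sum_nbij' (fun e => (e.2, e.1)) (fun e => (e.2, e.1)) ?_ ?_ ?_ ?_ ?_
      · intro e he
        unfold eds at he ⊢
        rw [Finset.mem_filter, Finset.mem_product] at he ⊢
        exact ⟨⟨he.1.2, he.1.1⟩, he.2.symm⟩
      · intro e he
        unfold eds at he ⊢
        rw [Finset.mem_filter, Finset.mem_product] at he ⊢
        exact ⟨⟨he.1.2, he.1.1⟩, he.2.symm⟩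
      · intro e _
        rfl
      · intro e _
        rfl
      · intro e _
        rfl
    rw [hsw]
    refine Finset.sum_congr rfl (fun e _ => ?_)
    rw [hsw]
  have h3 : ∑ e ∈ eds G W, ∑ e' ∈ eds G W,
      (if e.1 ≠ e'.1 ∧ e.2 ≠ e'.2 then
        ((cd G W e.1 e'.1 : ℝ) * a) * ((cd G W e.2 e'.2 : ℝ) * a) else 0) =
      P6 G W * (a * a) := by
    unfold P6
    rw [sum_eds G W, Finset.sum_mul]
    refine Finset.sum_congr rfl (fun u _ => ?_)
    rw [Finset.sum_mul]
    refine Finset.sum_congr rfl (fun v _ => ?_)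
    rw [sum_eds G W, Finset.sum_mul, ← Finset.filter_ne' W u, Finset.sum_filter]
    refine Finset.sum_congr rfl (fun u' _ => ?_)
    by_cases hu : u' = u
    · rw [if_neg (fun h => h hu)]
      refine Finset.sum_eq_zero (fun w _ => ?_)
      rw [if_neg (fun h => h.1 hu.symm)]
    · rw [if_pos hu, Finset.sum_mul, ← Finset.filter_ne' (nb G W u') v, Finset.sum_filter]
      refine Finset.sum_congr rfl (fun w _ => ?_)
      by_cases hw : w = v
      · rw [if_neg (fun h => h.2 hw.symm), if_neg (fun h => h hw)]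
      · rw [if_pos ⟨fun h => hu h.symm, fun h => hw h.symm⟩, if_pos hw]
        dsimp only
        ring
  rw [h1, h2, h3]
  ring

theorem exists_choice {V : Type*} [Fintype V] (G : SimpleGraph V) (W C L : Finset V) (g D : ℕ)
    (hg : 1 ≤ g) (hC : C ⊆ W) (hL : L ⊆ W) (hgood : ∀ v ∈ L, g ≤ dg G C v)
    (hD : ∀ v ∈ W, dg G W v ≤ D) :
    ∃ c : V → V, (∀ v ∈ L, c v ∈ C ∧ G.Adj v (c v)) ∧
      ((coll G L c).card : ℝ) + ((prs G L c).card : ℝ) ≤
        W.card * (D : ℝ) / g + 2 * P4 G W / (g : ℝ) ^ 2 + P6 G W / (g : ℝ) ^ 4 := by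
  classical
  have hg0 : (0 : ℝ) < (g : ℝ) := by exact_mod_cast hg
  set a : ℝ := 1 / (g : ℝ) ^ 2 with ha
  have ha0 : 0 ≤ a := by positivity
  set p : V → V → ℝ := fun v b => if v ∈ L then (if b ∈ nb G C v then 1 / (dg G C v : ℝ) else 0)
    else (if b = v then 1 else 0) with hpdef
  have hdpos : ∀ v ∈ L, (0 : ℝ) < (dg G C v : ℝ) := fun v hv => by
    exact_mod_cast lt_of_lt_of_le hg (hgood v hv)
  have hdg : ∀ v ∈ L, 1 / (dg G C v : ℝ) ≤ 1 / (g : ℝ) := fun v hv =>
    one_div_le_one_div_of_le hg0 (by exact_mod_cast hgood v hv)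
  have hp : ∀ i, ∑ b, p i b = 1 := by
    intro i
    by_cases hi : i ∈ L
    · simp only [hpdef, if_pos hi]
      rw [Finset.sum_ite_mem, Finset.univ_inter, Finset.sum_const, nsmul_eq_mul]
      exact mul_one_div_cancel (hdpos i hi).ne'
    · simp only [hpdef, if_neg hi]
      simp
  have hp0 : ∀ i b, 0 ≤ p i b := by
    intro i b
    simp only [hpdef]
    split_ifs
    · positivity
    · exact le_refl _
    · exact zero_le_one
    · exact le_refl _
  have hq : ∀ v ∈ L, ∀ v' ∈ L, ∑ b, p v b * p v' b =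
      ((nb G C v ∩ nb G C v').card : ℝ) * (1 / (dg G C v : ℝ) * (1 / (dg G C v' : ℝ))) := by
    intro v hv v' hv'
    have h1 : ∀ b, p v b * p v' b = if b ∈ nb G C v ∩ nb G C v' then
        (1 / (dg G C v : ℝ) * (1 / (dg G C v' : ℝ))) else 0 := by
      intro b
      simp only [hpdef, if_pos hv, if_pos hv', Finset.mem_inter]
      by_cases h : b ∈ nb G C v <;> by_cases h' : b ∈ nb G C v' <;> simp [h, h']
    rw [Finset.sum_congr rfl (fun b _ => h1 b), Finset.sum_ite_mem, Finset.univ_inter,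
      Finset.sum_const, nsmul_eq_mul]
  have hq1 : ∀ v ∈ L, ∀ v' ∈ L, ∑ b, p v b * p v' b ≤ 1 / (g : ℝ) := by
    intro v hv v' hv'
    rw [hq v hv v' hv', ← mul_assoc]
    have h1 : ((nb G C v ∩ nb G C v').card : ℝ) * (1 / (dg G C v : ℝ)) ≤ 1 := by
      have h2 : ((nb G C v ∩ nb G C v').card : ℝ) ≤ (dg G C v : ℝ) := by
        exact_mod_cast Finset.card_le_card Finset.inter_subset_left
      rw [mul_one_div]
      exact (div_le_one (hdpos v hv)).2 h2
    calc ((nb G C v ∩ nb G C v').card : ℝ) * (1 / (dg G C v : ℝ)) * (1 / (dg G C v' : ℝ))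
        ≤ 1 * (1 / (g : ℝ)) := mul_le_mul h1 (hdg v' hv') (by positivity) zero_le_one
      _ = 1 / (g : ℝ) := one_mul _
  have hq2 : ∀ v ∈ L, ∀ v' ∈ L, ∑ b, p v b * p v' b ≤ (cd G W v v' : ℝ) * a := by
    intro v hv v' hv'
    rw [hq v hv v' hv']
    have h1 : ((nb G C v ∩ nb G C v').card : ℝ) ≤ (cd G W v v' : ℝ) := by
      unfold cd
      have h2 : nb G C v ∩ nb G C v' ⊆ nb G W v ∩ nb G W v' := by
        intro b hb
        rw [Finset.mem_inter, mem_nb, mem_nb] at hb ⊢
        exact ⟨⟨hC hb.1.1, hb.1.2⟩, ⟨hC hb.2.1, hb.2.2⟩⟩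
      exact_mod_cast Finset.card_le_card h2
    have h3 : 1 / (dg G C v : ℝ) * (1 / (dg G C v' : ℝ)) ≤ a := by
      calc 1 / (dg G C v : ℝ) * (1 / (dg G C v' : ℝ)) ≤ 1 / (g : ℝ) * (1 / (g : ℝ)) :=
            mul_le_mul (hdg v hv) (hdg v' hv') (by positivity) (by positivity)
        _ = a := by rw [ha]; ring
    exact mul_le_mul h1 h3 (by positivity) (Nat.cast_nonneg _)
  have hq0 : ∀ v v', 0 ≤ ∑ b, p v b * p v' b := fun v v' =>
    Finset.sum_nonneg (fun b _ => mul_nonneg (hp0 v b) (hp0 v' b))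
  -- the expectation of `coll`
  have hcoll : Ex p (fun c => ((coll G L c).card : ℝ)) ≤ W.card * (D : ℝ) / g := by
    have h1 : (fun c : V → V => ((coll G L c).card : ℝ)) =
        fun c => ∑ e ∈ eds G L, if c e.1 = c e.2 then (1 : ℝ) else 0 := by
      funext c
      unfold coll
      simp
    rw [h1, ex_sum]
    have h2 : ∀ e ∈ eds G L, Ex p (fun c => if c e.1 = c e.2 then (1 : ℝ) else 0) ≤
        1 / (g : ℝ) := by
      intro e he
      unfold eds at he
      rw [Finset.mem_filter, Finset.mem_product] at he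
      rw [ex_eq p hp he.2.ne]
      exact hq1 _ he.1.1 _ he.1.2
    calc ∑ e ∈ eds G L, Ex p (fun c => if c e.1 = c e.2 then (1 : ℝ) else 0)
        ≤ ∑ e ∈ eds G L, 1 / (g : ℝ) := Finset.sum_le_sum h2
      _ = ((eds G L).card : ℝ) * (1 / (g : ℝ)) := by rw [Finset.sum_const, nsmul_eq_mul]
      _ ≤ (W.card * (D : ℝ)) * (1 / (g : ℝ)) := by
          refine mul_le_mul_of_nonneg_right ?_ (by positivity)
          calc ((eds G L).card : ℝ) ≤ ((eds G W).card : ℝ) := by
                exact_mod_cast Finset.card_le_card (eds_mono G hL)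
            _ ≤ W.card * (D : ℝ) := card_eds G W D hD
      _ = W.card * (D : ℝ) / g := by ring
  -- the expectation of `prs`
  have hprs : Ex p (fun c => ((prs G L c).card : ℝ)) ≤
      2 * P4 G W / (g : ℝ) ^ 2 + P6 G W / (g : ℝ) ^ 4 := by
    have h1 : ∀ c : V → V, ((prs G L c).card : ℝ) ≤ ∑ x ∈ eds G L ×ˢ eds G L,
        if (x.1 ≠ x.2 ∧ c x.1.1 ≠ c x.1.2 ∧ c x.2.1 ≠ c x.2.2 ∧ c x.1.1 = c x.2.1 ∧
          c x.1.2 = c x.2.2) then (1 : ℝ) else 0 := by
      intro c
      have h2 : prs G L c ⊆ (eds G L ×ˢ eds G L).filter (fun x => x.1 ≠ x.2 ∧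
          c x.1.1 ≠ c x.1.2 ∧ c x.2.1 ≠ c x.2.2 ∧ c x.1.1 = c x.2.1 ∧ c x.1.2 = c x.2.2) := by
        intro x hx
        unfold prs ncs at hx
        simp only [Finset.mem_filter, Finset.mem_product, Prod.mk.injEq] at hx ⊢
        exact ⟨⟨hx.1.1.1, hx.1.2.1⟩, hx.2.1, hx.1.1.2, hx.1.2.2, hx.2.2.1, hx.2.2.2⟩
      have h3 : ((prs G L c).card : ℝ) ≤ (((eds G L ×ˢ eds G L).filter (fun x => x.1 ≠ x.2 ∧
          c x.1.1 ≠ c x.1.2 ∧ c x.2.1 ≠ c x.2.2 ∧ c x.1.1 = c x.2.1 ∧
          c x.1.2 = c x.2.2)).card : ℝ) := by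
        exact_mod_cast Finset.card_le_card h2
      refine h3.trans (le_of_eq ?_)
      rw [Finset.card_filter]
      push_cast
      rfl
    have h4 : Ex p (fun c => ((prs G L c).card : ℝ)) ≤ ∑ x ∈ eds G L ×ˢ eds G L,
        Ex p (fun c => if (x.1 ≠ x.2 ∧ c x.1.1 ≠ c x.1.2 ∧ c x.2.1 ≠ c x.2.2 ∧
          c x.1.1 = c x.2.1 ∧ c x.1.2 = c x.2.2) then (1 : ℝ) else 0) := by
      rw [← ex_sum]
      exact ex_mono p hp0 (fun c _ => h1 c)
    have h5 : ∀ x ∈ eds G L ×ˢ eds G L,
        Ex p (fun c => if (x.1 ≠ x.2 ∧ c x.1.1 ≠ c x.1.2 ∧ c x.2.1 ≠ c x.2.2 ∧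
          c x.1.1 = c x.2.1 ∧ c x.1.2 = c x.2.2) then (1 : ℝ) else 0) ≤ F G W a x := by
      rintro ⟨⟨u, v⟩, ⟨u', v'⟩⟩ hx
      unfold eds at hx
      simp only [Finset.mem_filter, Finset.mem_product] at hx
      obtain ⟨⟨⟨hu, hv⟩, huv⟩, ⟨⟨hu', hv'⟩, huv'⟩⟩ := hx
      dsimp only
      have hzero : (∀ c : V → V, ¬ ((u, v) ≠ (u', v') ∧ c u ≠ c v ∧ c u' ≠ c v' ∧
          c u = c u' ∧ c v = c v')) →
          Ex p (fun c => if ((u, v) ≠ (u', v') ∧ c u ≠ c v ∧ c u' ≠ c v' ∧
          c u = c u' ∧ c v = c v') then (1 : ℝ) else 0) ≤ F G W a ((u, v), (u', v')) := by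
        intro h
        have h6 : (fun c : V → V => if ((u, v) ≠ (u', v') ∧ c u ≠ c v ∧ c u' ≠ c v' ∧
            c u = c u' ∧ c v = c v') then (1 : ℝ) else 0) = fun _ => 0 := by
          funext c
          rw [if_neg (h c)]
        rw [h6, ex_const p hp]
        exact F_nonneg G W a ha0 _
      by_cases h1' : u = u'
      · by_cases h2' : v = v'
        · exact hzero (fun c h => h.1 (by rw [h1', h2']))
        · have h7 : F G W a ((u, v), (u', v')) = (cd G W v v' : ℝ) * a := by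
            unfold F
            simp [h1', h2']
          rw [h7]
          refine le_trans (ex_mono p hp0 (g := fun c => if c v = c v' then (1 : ℝ) else 0)
            (fun c _ => ?_)) ?_
          · by_cases h8 : c v = c v'
            · rw [if_pos h8]
              split_ifs
              · exact le_refl _
              · exact zero_le_one
            · rw [if_neg h8, if_neg (fun h => h8 h.2.2.2.2)]
          · rw [ex_eq p hp h2']
            exact hq2 v hv v' hv'
      · by_cases h2' : v = v'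
        · have h7 : F G W a ((u, v), (u', v')) = (cd G W u u' : ℝ) * a := by
            unfold F
            simp [h1', h2']
          rw [h7]
          refine le_trans (ex_mono p hp0 (g := fun c => if c u = c u' then (1 : ℝ) else 0)
            (fun c _ => ?_)) ?_
          · by_cases h8 : c u = c u'
            · rw [if_pos h8]
              split_ifs
              · exact le_refl _
              · exact zero_le_one
            · rw [if_neg h8, if_neg (fun h => h8 h.2.2.2.1)]
          · rw [ex_eq p hp h1']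
            exact hq2 u hu u' hu'
        · by_cases h3' : u = v'
          · exact hzero (fun c h => h.2.1 (by rw [h.2.2.2.2, h3']))
          · by_cases h4' : v = u'
            · exact hzero (fun c h => h.2.1 (by rw [h.2.2.2.1, h4']))
            · have h7 : F G W a ((u, v), (u', v')) =
                  ((cd G W u u' : ℝ) * a) * ((cd G W v v' : ℝ) * a) := by
                unfold F
                simp [h1', h2']
              rw [h7]
              refine le_trans (ex_mono p hp0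
                (g := fun c => if c u = c u' ∧ c v = c v' then (1 : ℝ) else 0)
                (fun c _ => ?_)) ?_
              · by_cases h8 : c u = c u' ∧ c v = c v'
                · rw [if_pos h8]
                  split_ifs
                  · exact le_refl _
                  · exact zero_le_one
                · rw [if_neg h8, if_neg (fun h => h8 ⟨h.2.2.2.1, h.2.2.2.2⟩)]
              · rw [ex_eq_eq p hp h1' huv.ne h3' (fun h => h4' h.symm) huv'.ne h2']
                exact mul_le_mul (hq2 u hu u' hu') (hq2 v hv v' hv') (hq0 v v')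
                  (mul_nonneg (Nat.cast_nonneg _) ha0)
    calc Ex p (fun c => ((prs G L c).card : ℝ)) ≤ _ := h4
      _ ≤ ∑ x ∈ eds G L ×ˢ eds G L, F G W a x := Finset.sum_le_sum h5
      _ ≤ ∑ x ∈ eds G W ×ˢ eds G W, F G W a x :=
          Finset.sum_le_sum_of_subset_of_nonneg
            (Finset.product_subset_product (eds_mono G hL) (eds_mono G hL))
            (fun x _ _ => F_nonneg G W a ha0 x)
      _ = 2 * (P4 G W * a) + P6 G W * (a * a) := sum_F G W a
      _ = 2 * P4 G W / (g : ℝ) ^ 2 + P6 G W / (g : ℝ) ^ 4 := by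
          rw [ha]
          field_simp
  obtain ⟨c, hc, hle⟩ := ex_exists_le p hp0 hp
    (fun c => ((coll G L c).card : ℝ) + ((prs G L c).card : ℝ))
    (W.card * (D : ℝ) / g + 2 * P4 G W / (g : ℝ) ^ 2 + P6 G W / (g : ℝ) ^ 4)
    (by rw [ex_add]; linarith)
  refine ⟨c, fun v hv => ?_, hle⟩
  have h1 := hc v
  simp only [hpdef, if_pos hv] at h1
  by_cases h2 : c v ∈ nb G C v
  · exact mem_nb.1 h2
  · rw [if_neg h2] at h1
    exact absurd h1 (lt_irrefl _)

end Pool.Agent.Lib.MP_a2d8aa_co.Kf
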