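import Pool.Agent.Lib.MP_a2d8aa_co.Kf.Prob

/-!
# KF-Color (MP_a2d8aa_co)

A random set of centres. Every vertex of `W` is a centre with probability `1 / m`, independently
(`Ex` with `β = Bool`, `p v true = 1/m`, `p v false = 1 - 1/m`, `C = {v ∈ W : c v = true}`).
`good G W C g` = the non-centres with at least `g` neighbours which are centres.

Proof. Write `d(u) = dg G W u`, `X(u) = dg G C u = ∑_{w ∈ nb G W u} [c w = true]`, `Gd = good`.
For every `c`
`∑_{v ∈ Gd} dg G Gd v = #{(u, v) ∈ W², u ~ v, u ∈ Gd, v ∈ Gd}`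
`≥ ∑_{(u,v), u ~ v} (1 - [u ∈ C] - [v ∈ C] - [X(u) < g] - [X(v) < g])`
`= ∑_u d(u) - 2 ∑_u d(u) [u ∈ C] - 2 ∑_u d(u) [X(u) < g]`.
Expectations: `E [u ∈ C] = 1/m`, `E |C| = |W|/m`, `E X(u) = d(u)/m`, and
`E (X(u) - d(u)/m)² = d(u)/m - d(u)/m² ≤ d(u)/m` (`ex_one` and `ex_two` for `w ≠ w'`).
If `X(u) < g` then `X(u) ≤ d(u)/(2m)` by `2 m g ≤ d(u)`, so `(X(u) - d(u)/m)² ≥ d(u)²/(4 m²)`;
hence `d(u) [X(u) < g] ≤ (4 m²/d(u)) (X(u) - d(u)/m)²` and `E d(u) [X(u) < g] ≤ 4 m`.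
So `E ∑_{Gd} ≥ (1 - 2/m) ∑ d - 8 m |W| ≥ (3/4) ∑ d - 8 m |W|` (`m ≥ 8`) and
`E (lam |C| - ∑_{Gd}) ≤ lam |W|/m - (3/4) ∑ d + 8 m |W|`; apply `ex_exists_le`.
-/

set_option autoImplicit false

namespace Pool.Agent.Lib.MP_a2d8aa_co.Kf

private lemma kc_dg_sum {V : Type*} (G : SimpleGraph V) (W : Finset V) (h : V → ℝ) :
    ∑ v ∈ W, ∑ w ∈ nb G W v, h w = ∑ w ∈ W, (dg G W w : ℝ) * h w := by
  classical
  have h1 : ∀ v ∈ W, ∑ w ∈ nb G W v, h w = ∑ w ∈ W, if G.Adj v w then h w else 0 := by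
    intro v _
    rw [← Finset.sum_filter]
    refine Finset.sum_congr ?_ (fun _ _ => rfl)
    ext w
    rw [mem_nb, Finset.mem_filter]
  rw [Finset.sum_congr rfl h1, Finset.sum_comm]
  refine Finset.sum_congr rfl (fun w _ => ?_)
  rw [← Finset.sum_filter, Finset.sum_const, nsmul_eq_mul]
  congr 2
  rw [dg]
  congr 1
  ext v
  rw [mem_nb, Finset.mem_filter, G.adj_comm]

private lemma kc_good {V : Type*} (G : SimpleGraph V) (W C : Finset V) (g : ℕ) (v : V) :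
    v ∈ good G W C g ↔ v ∈ W ∧ v ∉ C ∧ g ≤ dg G C v := by
  classical
  rw [good, Finset.mem_filter, Finset.mem_sdiff, and_assoc]

open Classical in
private lemma kc_point {V : Type*} (G : SimpleGraph V) (W C : Finset V) (m g : ℕ)
    (hm : 8 ≤ m) (hg : ∀ v ∈ W, 2 * m * g ≤ dg G W v) (hpos : ∀ v ∈ W, 1 ≤ dg G W v) :
    ∑ v ∈ W, (dg G W v : ℝ) ≤ ∑ v ∈ good G W C g, (dg G (good G W C g) v : ℝ) +
      2 * ∑ v ∈ W, (dg G W v : ℝ) * (if v ∈ C then 1 else 0) +
      2 * ∑ u ∈ W, (4 * (m : ℝ) ^ 2 / (dg G W u : ℝ)) *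
        ((dg G C u : ℝ) - (dg G W u : ℝ) / m) ^ 2 := by
  have hm0 : (0 : ℝ) < m := by
    have : (8 : ℝ) ≤ m := by exact_mod_cast hm
    linarith
  obtain ⟨a, ha⟩ : ∃ a : V → ℝ, a = fun v => if v ∈ good G W C g then (1 : ℝ) else 0 := ⟨_, rfl⟩
  have ha01 : ∀ v, a v = 0 ∨ a v = 1 := by
    intro v; rw [ha]; dsimp only; split_ifs <;> simp
  have hsub : good G W C g ⊆ W := fun v hv => ((kc_good G W C g v).1 hv).1
  -- the sum over good vertices
  have hsum : ∑ v ∈ good G W C g, (dg G (good G W C g) v : ℝ) =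
      ∑ v ∈ W, ∑ w ∈ nb G W v, a v * a w := by
    have h1 : ∀ v, ∑ w ∈ nb G W v, a w = (dg G (good G W C g) v : ℝ) := by
      intro v
      rw [ha]
      dsimp only
      rw [← Finset.sum_filter, Finset.sum_const, nsmul_eq_mul, mul_one, dg]
      congr 2
      ext w
      rw [Finset.mem_filter, mem_nb, mem_nb]
      constructor
      · rintro ⟨⟨_, h2⟩, h3⟩; exact ⟨h3, h2⟩
      · rintro ⟨h3, h2⟩; exact ⟨⟨hsub h3, h2⟩, h3⟩
    have h2 : ∀ v ∈ W, ∑ w ∈ nb G W v, a v * a w =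
        if v ∈ good G W C g then (dg G (good G W C g) v : ℝ) else 0 := by
      intro v _
      rw [← Finset.mul_sum, h1, ha]
      dsimp only
      split_ifs
      · rw [one_mul]
      · rw [zero_mul]
    rw [Finset.sum_congr rfl h2, ← Finset.sum_filter]
    refine Finset.sum_congr ?_ (fun _ _ => rfl)
    ext v
    rw [Finset.mem_filter]
    exact ⟨fun h => ⟨hsub h, h⟩, fun h => h.2⟩
  have hlow : ∑ v ∈ W, ∑ w ∈ nb G W v, (1 - (1 - a v) - (1 - a w)) ≤
      ∑ v ∈ W, ∑ w ∈ nb G W v, a v * a w := by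
    refine Finset.sum_le_sum (fun v _ => Finset.sum_le_sum (fun w _ => ?_))
    rcases ha01 v with h1 | h1 <;> rcases ha01 w with h2 | h2 <;> rw [h1, h2] <;> norm_num
  have heq : ∑ v ∈ W, ∑ w ∈ nb G W v, (1 - (1 - a v) - (1 - a w)) =
      ∑ v ∈ W, (dg G W v : ℝ) - 2 * ∑ v ∈ W, (dg G W v : ℝ) * (1 - a v) := by
    have h1 : ∀ v ∈ W, ∑ w ∈ nb G W v, (1 - (1 - a v) - (1 - a w)) =
        (dg G W v : ℝ) - (dg G W v : ℝ) * (1 - a v) - ∑ w ∈ nb G W v, (1 - a w) := by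
      intro v _
      rw [Finset.sum_sub_distrib, Finset.sum_const, nsmul_eq_mul, ← dg]
      ring
    rw [Finset.sum_congr rfl h1, Finset.sum_sub_distrib, Finset.sum_sub_distrib,
      kc_dg_sum G W (fun w => 1 - a w)]
    ring
  have hkey : ∑ v ∈ W, (dg G W v : ℝ) * (1 - a v) ≤
      ∑ v ∈ W, (dg G W v : ℝ) * (if v ∈ C then 1 else 0) +
      ∑ u ∈ W, (4 * (m : ℝ) ^ 2 / (dg G W u : ℝ)) *
        ((dg G C u : ℝ) - (dg G W u : ℝ) / m) ^ 2 := by
    rw [← Finset.sum_add_distrib]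
    refine Finset.sum_le_sum (fun v hv => ?_)
    have hd : (1 : ℝ) ≤ (dg G W v : ℝ) := by exact_mod_cast hpos v hv
    have hd0 : (0 : ℝ) < (dg G W v : ℝ) := by linarith
    have hsq : 0 ≤ (4 * (m : ℝ) ^ 2 / (dg G W v : ℝ)) *
        ((dg G C v : ℝ) - (dg G W v : ℝ) / m) ^ 2 := by positivity
    by_cases hgood : v ∈ good G W C g
    · have : a v = 1 := by rw [ha]; simp [hgood]
      rw [this, sub_self, mul_zero]
      have : (0 : ℝ) ≤ (dg G W v : ℝ) * (if v ∈ C then 1 else 0) := by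
        split_ifs
        · linarith
        · simp
      linarith
    · have ha0 : a v = 0 := by rw [ha]; simp [hgood]
      rw [ha0, sub_zero, mul_one]
      by_cases hvC : v ∈ C
      · rw [if_pos hvC, mul_one]
        linarith
      · rw [if_neg hvC, mul_zero, zero_add]
        have hlt : dg G C v < g := by
          by_contra hge
          exact hgood ((kc_good G W C g v).2 ⟨hv, hvC, not_lt.1 hge⟩)
        have hlt' : (dg G C v : ℝ) ≤ (dg G W v : ℝ) / (2 * m) := by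
          rw [le_div_iff₀ (by positivity)]
          have h3 := hg v hv
          have h4 : (2 * m * g : ℝ) ≤ (dg G W v : ℝ) := by exact_mod_cast h3
          have h5 : (dg G C v : ℝ) ≤ (g : ℝ) := by exact_mod_cast hlt.le
          nlinarith
        have hx : (dg G W v : ℝ) / (2 * m) ≤ (dg G W v : ℝ) / m - (dg G C v : ℝ) := by
          have : (dg G W v : ℝ) / m = (dg G W v : ℝ) / (2 * m) + (dg G W v : ℝ) / (2 * m) := by
            field_simp; ring
          linarith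
        have h0 : 0 ≤ (dg G W v : ℝ) / (2 * m) := by positivity
        have hsq2 : ((dg G W v : ℝ) / (2 * m)) ^ 2 ≤
            ((dg G C v : ℝ) - (dg G W v : ℝ) / m) ^ 2 := by
          have : ((dg G C v : ℝ) - (dg G W v : ℝ) / m) ^ 2 =
              ((dg G W v : ℝ) / m - (dg G C v : ℝ)) ^ 2 := by ring
          rw [this]
          exact pow_le_pow_left₀ h0 hx 2
        calc (dg G W v : ℝ) = (4 * (m : ℝ) ^ 2 / (dg G W v : ℝ)) *
              ((dg G W v : ℝ) / (2 * m)) ^ 2 := by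
              field_simp; ring
          _ ≤ _ := mul_le_mul_of_nonneg_left hsq2 (by positivity)
  rw [hsum]
  rw [heq] at hlow
  linarith

theorem exists_centres {V : Type*} [Fintype V] (G : SimpleGraph V) (W : Finset V) (m g : ℕ)
    (hm : 8 ≤ m) (hg : ∀ v ∈ W, 2 * m * g ≤ dg G W v) (hpos : ∀ v ∈ W, 1 ≤ dg G W v)
    (lam : ℝ) :
    ∃ C ⊆ W, lam * (C.card : ℝ) + (3 / 4) * ∑ v ∈ W, (dg G W v : ℝ) ≤
      ∑ v ∈ good G W C g, (dg G (good G W C g) v : ℝ) + 8 * m * (W.card : ℝ) +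
        lam * (W.card : ℝ) / m := by
  classical
  have hm8 : (8 : ℝ) ≤ m := by exact_mod_cast hm
  have hm0 : (0 : ℝ) < m := by linarith
  obtain ⟨p, hpd⟩ : ∃ p : V → Bool → ℝ, p = fun _ b => if b then 1 / (m : ℝ) else 1 - 1 / m :=
    ⟨_, rfl⟩
  have hpt : ∀ i, p i true = 1 / m := by intro i; rw [hpd]; simp
  have hpf : ∀ i, p i false = 1 - 1 / m := by intro i; rw [hpd]; simp
  have hp : ∀ i, ∑ b, p i b = 1 := by
    intro i; rw [Fintype.sum_bool, hpt, hpf]; ring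
  have h1m : 1 / (m : ℝ) ≤ 1 / 8 := one_div_le_one_div_of_le (by norm_num) hm8
  have hp0 : ∀ i b, 0 ≤ p i b := by
    intro i b
    cases b
    · rw [hpf]; linarith
    · rw [hpt]; positivity
  obtain ⟨I, hId⟩ : ∃ I : V → (V → Bool) → ℝ, I = fun v c => if c v = true then (1 : ℝ) else 0 :=
    ⟨_, rfl⟩
  have hI : ∀ v, Ex p (I v) = 1 / m := by
    intro v; rw [hId, ← hpt v]; exact ex_one p hp v true
  have hII : ∀ v w, v ≠ w → Ex p (fun c => I v c * I w c) = 1 / m * (1 / m) := by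
    intro v w hvw
    rw [hId]
    have := ex_two p hp hvw true true
    rw [hpt, hpt] at this
    exact this
  have hIsq : ∀ v c, I v c * I v c = I v c := by
    intro v c; rw [hId]; dsimp only; split_ifs <;> norm_num
  -- the covariances
  have hJ : ∀ v w, Ex p (fun c => (I v c - 1 / m) * (I w c - 1 / m)) =
      if v = w then 1 / (m : ℝ) - 1 / m * (1 / m) else 0 := by
    intro v w
    have hexp : (fun c => (I v c - 1 / m) * (I w c - 1 / m)) =
        fun c => ((I v c * I w c - (1 / m) * I v c) - (1 / m) * I w c) + (1 / m) * (1 / m) := by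
      funext c; ring
    rw [hexp, ex_add, ex_sub, ex_sub, ex_mul_left, ex_mul_left, ex_const p hp]
    rw [show Ex p (fun c => I v c) = 1 / m from hI v, show Ex p (fun c => I w c) = 1 / m from hI w]
    by_cases hvw : v = w
    · subst hvw
      rw [if_pos rfl]
      have : (fun c => I v c * I v c) = I v := by funext c; exact hIsq v c
      rw [this, hI]
      ring
    · rw [if_neg hvw, hII v w hvw]
      ring
  have hvar : ∀ S : Finset V, Ex p (fun c => (∑ w ∈ S, (I w c - 1 / m)) ^ 2) =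
      (S.card : ℝ) * (1 / m - 1 / m * (1 / m)) := by
    intro S
    have hexp : (fun c => (∑ w ∈ S, (I w c - 1 / m)) ^ 2) =
        fun c => ∑ v ∈ S, ∑ w ∈ S, (I v c - 1 / m) * (I w c - 1 / m) := by
      funext c
      rw [sq, Finset.sum_mul_sum]
    rw [hexp, ex_sum]
    have h2 : ∀ v ∈ S, Ex p (fun c => ∑ w ∈ S, (I v c - 1 / m) * (I w c - 1 / m)) =
        1 / (m : ℝ) - 1 / m * (1 / m) := by
      intro v hv
      rw [ex_sum]
      simp only [hJ]
      rw [Finset.sum_ite_eq, if_pos hv]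
    rw [Finset.sum_congr rfl h2, Finset.sum_const, nsmul_eq_mul]
  obtain ⟨Cc, hCd⟩ : ∃ Cc : (V → Bool) → Finset V, Cc = fun c => W.filter (fun v => c v = true) :=
    ⟨_, rfl⟩
  have hCsub : ∀ c, Cc c ⊆ W := by intro c; rw [hCd]; exact Finset.filter_subset _ _
  have hCcard : ∀ c, ((Cc c).card : ℝ) = ∑ v ∈ W, I v c := by
    intro c
    rw [hId, hCd]
    dsimp only
    rw [← Finset.sum_filter, Finset.sum_const, nsmul_eq_mul, mul_one]
  have hCind : ∀ c, ∀ v ∈ W, (if v ∈ Cc c then (1 : ℝ) else 0) = I v c := by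
    intro c v hv
    rw [hId, hCd]
    dsimp only
    simp [hv]
  have hCdg : ∀ c u, (dg G (Cc c) u : ℝ) = ∑ w ∈ nb G W u, I w c := by
    intro c u
    rw [hId, hCd]
    dsimp only
    rw [← Finset.sum_filter, Finset.sum_const, nsmul_eq_mul, mul_one, dg]
    congr 2
    ext w
    rw [mem_nb, Finset.mem_filter, Finset.mem_filter, mem_nb]
    tauto
  have hXu : ∀ c u, (dg G (Cc c) u : ℝ) - (dg G W u : ℝ) / m =
      ∑ w ∈ nb G W u, (I w c - 1 / m) := by
    intro c u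
    rw [hCdg, Finset.sum_sub_distrib, Finset.sum_const, nsmul_eq_mul, ← dg]
    ring
  obtain ⟨F, hF⟩ : ∃ F : (V → Bool) → ℝ, F = fun c => lam * ((Cc c).card : ℝ) -
      ∑ v ∈ good G W (Cc c) g, (dg G (good G W (Cc c) g) v : ℝ) := ⟨_, rfl⟩
  obtain ⟨H, hH⟩ : ∃ H : (V → Bool) → ℝ, H = fun c => (lam * (∑ v ∈ W, I v c) -
      ∑ v ∈ W, (dg G W v : ℝ)) + (2 * ∑ v ∈ W, (dg G W v : ℝ) * I v c +
      2 * ∑ u ∈ W, (4 * (m : ℝ) ^ 2 / (dg G W u : ℝ)) *
        (∑ w ∈ nb G W u, (I w c - 1 / m)) ^ 2) := ⟨_, rfl⟩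
  have hFH : Ex p F ≤ Ex p H := by
    refine ex_mono p hp0 (fun c _ => ?_)
    rw [hF, hH]
    dsimp only
    have h1 := kc_point G W (Cc c) m g hm hg hpos
    have h2 : ∑ v ∈ W, (dg G W v : ℝ) * (if v ∈ Cc c then 1 else 0) =
        ∑ v ∈ W, (dg G W v : ℝ) * I v c :=
      Finset.sum_congr rfl (fun v hv => by rw [hCind c v hv])
    have h3 : ∑ u ∈ W, (4 * (m : ℝ) ^ 2 / (dg G W u : ℝ)) *
        ((dg G (Cc c) u : ℝ) - (dg G W u : ℝ) / m) ^ 2 =
        ∑ u ∈ W, (4 * (m : ℝ) ^ 2 / (dg G W u : ℝ)) *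
        (∑ w ∈ nb G W u, (I w c - 1 / m)) ^ 2 :=
      Finset.sum_congr rfl (fun u _ => by rw [hXu])
    rw [h2, h3] at h1
    rw [hCcard]
    linarith
  have hExH : Ex p H ≤ lam * (W.card : ℝ) / m - (3 / 4) * ∑ v ∈ W, (dg G W v : ℝ) +
      8 * m * (W.card : ℝ) := by
    rw [hH, ex_add, ex_sub, ex_const p hp, ex_mul_left, ex_sum, ex_add, ex_mul_left, ex_mul_left,
      ex_sum, ex_sum]
    have e1 : ∑ v ∈ W, Ex p (I v) = (W.card : ℝ) / m := by
      simp only [hI]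
      rw [Finset.sum_const, nsmul_eq_mul]; ring
    have e2 : ∑ v ∈ W, Ex p (fun c => (dg G W v : ℝ) * I v c) =
        (∑ v ∈ W, (dg G W v : ℝ)) / m := by
      rw [Finset.sum_div]
      refine Finset.sum_congr rfl (fun v _ => ?_)
      rw [ex_mul_left, show Ex p (fun c => I v c) = 1 / m from hI v]
      ring
    have e3 : ∑ u ∈ W, Ex p (fun c => (4 * (m : ℝ) ^ 2 / (dg G W u : ℝ)) *
        (∑ w ∈ nb G W u, (I w c - 1 / m)) ^ 2) ≤ 4 * m * (W.card : ℝ) := by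
      have : ∀ u ∈ W, Ex p (fun c => (4 * (m : ℝ) ^ 2 / (dg G W u : ℝ)) *
          (∑ w ∈ nb G W u, (I w c - 1 / m)) ^ 2) ≤ 4 * m := by
        intro u hu
        have hd : (1 : ℝ) ≤ (dg G W u : ℝ) := by exact_mod_cast hpos u hu
        have hd0 : (0 : ℝ) < (dg G W u : ℝ) := by linarith
        rw [ex_mul_left, hvar, ← dg]
        have : (4 * (m : ℝ) ^ 2 / (dg G W u : ℝ)) *
            ((dg G W u : ℝ) * (1 / m - 1 / m * (1 / m))) = 4 * m - 4 := by
          field_simp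
        rw [this]
        linarith
      refine (Finset.sum_le_sum this).trans ?_
      rw [Finset.sum_const, nsmul_eq_mul]
      linarith
    have hD : 0 ≤ ∑ v ∈ W, (dg G W v : ℝ) := Finset.sum_nonneg (fun _ _ => Nat.cast_nonneg _)
    have hDm : (∑ v ∈ W, (dg G W v : ℝ)) / m ≤ (∑ v ∈ W, (dg G W v : ℝ)) / 8 :=
      div_le_div_of_nonneg_left hD (by norm_num) hm8
    have e1' : ∑ x ∈ W, Ex p (fun c => I x c) = (W.card : ℝ) / m := e1
    rw [e2]
    rw [show lam * (W.card : ℝ) / m = lam * ((W.card : ℝ) / m) by ring, ← e1']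
    linarith
  obtain ⟨c, _, hc⟩ := ex_exists_le p hp0 hp F _ (hFH.trans hExH)
  refine ⟨Cc c, hCsub c, ?_⟩
  rw [hF] at hc
  dsimp only at hc
  linarith

end Pool.Agent.Lib.MP_a2d8aa_co.Kf
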