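import Pool.Agent.Lib.MP_a2d8aa_co.Kf.Defs

/-!
# KF-Image (MP_a2d8aa_co)

A map on a finite set takes at least `|S| - #{(e, e') : e ≠ e', φ e = φ e'}` values.
Proof: write `S` as the disjoint union of the fibres over the image; a fibre with `f ≥ 1` elements
gives `f (f - 1)` ordered pairs, and `1 ≥ f - f (f - 1)`. (Or by induction on `S`: adding `e` with
`φ e` already in the image adds at least one pair.)
-/

set_option autoImplicit false

namespace Pool.Agent.Lib.MP_a2d8aa_co.Kf

theorem card_le_image_add {α β : Type*} [DecidableEq α] [DecidableEq β] (S : Finset α)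
    (φ : α → β) :
    S.card ≤ (S.image φ).card +
      ((S ×ˢ S).filter (fun p => p.1 ≠ p.2 ∧ φ p.1 = φ p.2)).card := by
  induction S using Finset.induction_on with
  | empty => simp
  | insert e S he ih =>
    rw [Finset.card_insert_of_notMem he, Finset.image_insert]
    have hsub : (S ×ˢ S).filter (fun p => p.1 ≠ p.2 ∧ φ p.1 = φ p.2) ⊆
        (insert e S ×ˢ insert e S).filter (fun p => p.1 ≠ p.2 ∧ φ p.1 = φ p.2) := by
      apply Finset.filter_subset_filter
      exact Finset.product_subset_product (Finset.subset_insert e S) (Finset.subset_insert e S)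
    by_cases h : φ e ∈ S.image φ
    · rw [Finset.insert_eq_of_mem h]
      obtain ⟨e', he', hee⟩ := Finset.mem_image.1 h
      have hne : e ≠ e' := fun h' => he (h' ▸ he')
      have hnot : (e, e') ∉ (S ×ˢ S).filter (fun p => p.1 ≠ p.2 ∧ φ p.1 = φ p.2) := by
        intro hm
        exact he (Finset.mem_product.1 (Finset.mem_filter.1 hm).1).1
      have hins : insert (e, e') ((S ×ˢ S).filter (fun p => p.1 ≠ p.2 ∧ φ p.1 = φ p.2)) ⊆
          (insert e S ×ˢ insert e S).filter (fun p => p.1 ≠ p.2 ∧ φ p.1 = φ p.2) := by
        refine Finset.insert_subset ?_ hsub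
        rw [Finset.mem_filter, Finset.mem_product]
        exact ⟨⟨Finset.mem_insert_self e S, Finset.mem_insert_of_mem he'⟩, hne, hee.symm⟩
      have h1 := Finset.card_le_card hins
      rw [Finset.card_insert_of_notMem hnot] at h1
      omega
    · rw [Finset.card_insert_of_notMem h]
      have h1 := Finset.card_le_card hsub
      omega

end Pool.Agent.Lib.MP_a2d8aa_co.Kf
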