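import Pool.Agent.Lib.MP_a2d8aa_co.Kf.Defs

/-!
# KF-Peel (MP_a2d8aa_co)

Two elementary facts on the sum of the degrees.

`peel`: a graph with `∑_{a ∈ T} dg(a) ≥ 2 d |T|` (that is, at least `d |T|` edges inside `T`) has a
nonempty `W ⊆ T` with minimum degree at least `d` inside `W`.
Proof. Induction on `|T|`. If every `a ∈ T` has `dg Q T a ≥ d`, take `W = T`. Otherwise some
`a ∈ T` has `dg Q T a ≤ d - 1`; for `T' = T.erase a` one has
`∑_{b ∈ T'} dg Q T' b = ∑_{b ∈ T} dg Q T b - 2 dg Q T a ≥ 2 d |T| - 2 (d - 1) = 2 d |T'| + 2`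
(`dg Q T b = dg Q T' b + [b ~ a]`, and `a` is not adjacent to itself), in particular the sum is
positive, so `T'` is nonempty; apply the induction hypothesis.

`sum_dg_le`: if every nonempty `W ⊆ U` has a vertex with at most `k` neighbours in `W`, then
`∑_{a ∈ W} dg(a) ≤ 2 k |W|` for every `W ⊆ U`. Proof: induction on `|W|`, remove that vertex, the
sum drops by `2 dg G W a ≤ 2 k`.
-/

set_option autoImplicit false

namespace Pool.Agent.Lib.MP_a2d8aa_co.Kf

variable {V : Type*}

open Classical in
private theorem dg_eq (G : SimpleGraph V) (W : Finset V) (v : V) :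
    dg G W v = ∑ w ∈ W, if G.Adj v w then 1 else 0 := by
  unfold dg nb
  rw [Finset.card_filter]

open Classical in
private theorem sum_step (G : SimpleGraph V) (T : Finset V) (a : V) (ha : a ∈ T) :
    ∑ b ∈ T, dg G T b = ∑ b ∈ T.erase a, dg G (T.erase a) b + 2 * dg G T a := by
  have h1 : ∀ b, dg G T b = (if G.Adj b a then 1 else 0) + dg G (T.erase a) b := by
    intro b
    rw [dg_eq, dg_eq, ← Finset.add_sum_erase T _ ha]
  have h2 : ∑ b ∈ T.erase a, (if G.Adj b a then 1 else 0) = dg G T a := by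
    rw [h1 a, if_neg (SimpleGraph.irrefl G), zero_add, dg_eq]
    refine Finset.sum_congr rfl fun b _ => ?_
    simp only [SimpleGraph.adj_comm]
  calc ∑ b ∈ T, dg G T b = dg G T a + ∑ b ∈ T.erase a, dg G T b :=
        (Finset.add_sum_erase T _ ha).symm
    _ = dg G T a + ∑ b ∈ T.erase a, ((if G.Adj b a then 1 else 0) + dg G (T.erase a) b) := by
        congr 1
        exact Finset.sum_congr rfl fun b _ => h1 b
    _ = _ := by
        rw [Finset.sum_add_distrib, h2]
        ring

theorem peel (Q : SimpleGraph V) (d : ℕ) (T : Finset V) (hT : T.Nonempty)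
    (h : 2 * d * T.card ≤ ∑ a ∈ T, dg Q T a) :
    ∃ W ⊆ T, W.Nonempty ∧ ∀ a ∈ W, d ≤ dg Q W a := by
  classical
  induction T using Finset.strongInduction with
  | H T ih =>
    by_cases hall : ∀ a ∈ T, d ≤ dg Q T a
    · exact ⟨T, subset_rfl, hT, hall⟩
    push Not at hall
    obtain ⟨a, ha, hda⟩ := hall
    have h1 := sum_step Q T a ha
    have h2 : T.card = (T.erase a).card + 1 := (Finset.card_erase_add_one ha).symm
    have h3 : 2 * d * T.card = 2 * d * (T.erase a).card + 2 * d := by rw [h2]; ring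
    have h4 : 2 * d * (T.erase a).card + 2 ≤ ∑ b ∈ T.erase a, dg Q (T.erase a) b := by
      rw [h1, h3] at h
      omega
    have h5 : (T.erase a).Nonempty := by
      rw [Finset.nonempty_iff_ne_empty]
      intro h0
      rw [h0] at h4
      simp at h4
    obtain ⟨W, hW, hW1, hW2⟩ := ih (T.erase a) (Finset.erase_ssubset ha) h5 (by omega)
    exact ⟨W, hW.trans (Finset.erase_subset _ _), hW1, hW2⟩

theorem sum_dg_le (G : SimpleGraph V) (k : ℕ) (U : Finset V)
    (h : ∀ W ⊆ U, W.Nonempty → ∃ u ∈ W, dg G W u ≤ k) (W : Finset V) (hW : W ⊆ U) :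
    ∑ a ∈ W, dg G W a ≤ 2 * k * W.card := by
  classical
  induction W using Finset.strongInduction with
  | H W ih =>
    rcases W.eq_empty_or_nonempty with rfl | hne
    · simp
    obtain ⟨u, hu, hdu⟩ := h W hW hne
    have h1 := sum_step G W u hu
    have h2 : W.card = (W.erase u).card + 1 := (Finset.card_erase_add_one hu).symm
    have h3 : 2 * k * W.card = 2 * k * (W.erase u).card + 2 * k := by rw [h2]; ring
    have h4 := ih (W.erase u) (Finset.erase_ssubset hu) ((Finset.erase_subset _ _).trans hW)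
    rw [h1, h3]
    omega

end Pool.Agent.Lib.MP_a2d8aa_co.Kf
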