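import Pool.Agent.Lib.MP_a2d8aa_co.Kf.Defs

/-!
# KF-Walk (MP_a2d8aa_co)

Bounds for the numbers of closed walks of length 4 and 6, when degrees are at most `D` and, for
every `v`, all but at most `t` vertices `y` have `q cd(v,y) < k`, where `t q ≤ k`.

Facts: `cd G W u v ≤ dg G W u ≤ D`; `∑_{w ∈ W} cd G W v w = ∑_{b ∈ nb G W v} dg G W b ≤ D²`
(double counting of the `(b, w)`, `b ∈ nb v`, `w ∈ nb b`).

`P4_le`: fix `v`; `Y = {w ∈ W : k ≤ q cd(v,w)}` has at most `t` elements and contributes at most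
`q t D² ≤ k D²` to `q ∑_w cd(v,w)²`; for `w ∉ Y`, `q cd² ≤ k cd`, in total at most `k D²`. Sum over
`v` (dropping the condition `w ≠ v`).

`P6_le`: drop the conditions `u' ≠ u`, `v' ≠ v` (all terms are nonnegative) and exchange the sums:
`P6 ≤ ∑_{u ∈ W} ∑_{v ∈ nb u} ∑_{v' ∈ W} cd(v,v') ∑_{u' ∈ nb v'} cd(u,u')`. For fixed `u`, `v'`:
`q ∑_{u' ∈ nb v'} cd(u,u') ≤ q t D + D k ≤ 2 D k` (at most `t` of the `u'` have `k ≤ q cd(u,u')`,
each has `cd ≤ D`; the others have `q cd ≤ k` and there are at most `D`). Then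
`∑_{v'} cd(v,v') ≤ D²`, at most `D` vertices `v`, `|W|` vertices `u`.
-/

set_option autoImplicit false

namespace Pool.Agent.Lib.MP_a2d8aa_co.Kf

variable {V : Type*}

private theorem walk_cd_le (G : SimpleGraph V) (W : Finset V) (u v : V) :
    cd G W u v ≤ dg G W u := by
  classical
  unfold cd dg
  exact Finset.card_le_card Finset.inter_subset_left

private theorem walk_sum_cd (G : SimpleGraph V) (W : Finset V) (D : ℕ)
    (hD : ∀ v ∈ W, dg G W v ≤ D) (v : V) (hv : v ∈ W) : ∑ w ∈ W, cd G W v w ≤ D * D := by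
  classical
  have h1 : ∑ w ∈ W, cd G W v w = ∑ b ∈ nb G W v, dg G W b := by
    have h2 : ∀ w ∈ W, cd G W v w = ∑ b ∈ nb G W v, if G.Adj b w then 1 else 0 := by
      intro w _
      rw [← Finset.card_filter]
      unfold cd
      congr 1
      ext b
      rw [Finset.mem_inter, Finset.mem_filter, mem_nb, mem_nb]
      constructor
      · rintro ⟨h3, h4⟩
        exact ⟨h3, h4.2.symm⟩
      · rintro ⟨h3, h4⟩
        exact ⟨h3, h3.1, h4.symm⟩
    rw [Finset.sum_congr rfl h2, Finset.sum_comm]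
    apply Finset.sum_congr rfl
    intro b _
    rw [← Finset.card_filter]
    unfold dg nb
    rfl
  rw [h1]
  calc ∑ b ∈ nb G W v, dg G W b ≤ ∑ _b ∈ nb G W v, D :=
        Finset.sum_le_sum fun b hb => hD b (mem_nb.1 hb).1
    _ = (nb G W v).card * D := by rw [Finset.sum_const, smul_eq_mul]
    _ ≤ D * D := Nat.mul_le_mul_right _ (hD v hv)

private theorem walk_row4 (G : SimpleGraph V) (W : Finset V) (D k q t : ℕ)
    (hD : ∀ v ∈ W, dg G W v ≤ D) (ht : t * q ≤ k)
    (hfew : ∀ v ∈ W, ∀ Y ⊆ W, (∀ y ∈ Y, k ≤ q * cd G W v y) → Y.card ≤ t) (v : V) (hv : v ∈ W) :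
    q * ∑ w ∈ W, cd G W v w ^ 2 ≤ 2 * (D * D * k) := by
  classical
  obtain ⟨Y, hY⟩ : ∃ Y, Y = W.filter (fun w => k ≤ q * cd G W v w) := ⟨_, rfl⟩
  have hYc : Y.card ≤ t := by
    refine hfew v hv Y ?_ ?_
    · rw [hY]
      exact Finset.filter_subset _ _
    · intro y hy
      rw [hY, Finset.mem_filter] at hy
      exact hy.2
  have h1 : ∑ w ∈ W, cd G W v w ^ 2 = ∑ w ∈ Y, cd G W v w ^ 2 +
      ∑ w ∈ W.filter (fun w => ¬ k ≤ q * cd G W v w), cd G W v w ^ 2 := by
    rw [hY]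
    exact (Finset.sum_filter_add_sum_filter_not W _ _).symm
  have h2 : q * ∑ w ∈ Y, cd G W v w ^ 2 ≤ D * D * k := by
    calc q * ∑ w ∈ Y, cd G W v w ^ 2 ≤ q * ∑ _w ∈ Y, D * D := by
          refine Nat.mul_le_mul_left _ (Finset.sum_le_sum fun w _ => ?_)
          rw [sq]
          have h3 := (walk_cd_le G W v w).trans (hD v hv)
          exact Nat.mul_le_mul h3 h3
      _ = Y.card * q * (D * D) := by
          rw [Finset.sum_const, smul_eq_mul]
          ring
      _ ≤ k * (D * D) :=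
          Nat.mul_le_mul_right _ ((Nat.mul_le_mul_right _ hYc).trans ht)
      _ = D * D * k := by ring
  have h3 : q * ∑ w ∈ W.filter (fun w => ¬ k ≤ q * cd G W v w), cd G W v w ^ 2 ≤ D * D * k := by
    calc q * ∑ w ∈ W.filter (fun w => ¬ k ≤ q * cd G W v w), cd G W v w ^ 2
        = ∑ w ∈ W.filter (fun w => ¬ k ≤ q * cd G W v w), q * cd G W v w * cd G W v w := by
          rw [Finset.mul_sum]
          apply Finset.sum_congr rfl
          intro w _
          ring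
      _ ≤ ∑ w ∈ W.filter (fun w => ¬ k ≤ q * cd G W v w), k * cd G W v w := by
          refine Finset.sum_le_sum fun w hw => Nat.mul_le_mul_right _ ?_
          rw [Finset.mem_filter] at hw
          omega
      _ ≤ ∑ w ∈ W, k * cd G W v w :=
          Finset.sum_le_sum_of_subset (Finset.filter_subset _ _)
      _ = k * ∑ w ∈ W, cd G W v w := by rw [Finset.mul_sum]
      _ ≤ k * (D * D) := Nat.mul_le_mul_left _ (walk_sum_cd G W D hD v hv)
      _ = D * D * k := by ring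
  rw [h1, mul_add]
  omega

private theorem walk_row6 (G : SimpleGraph V) (W : Finset V) (D k q t : ℕ)
    (hD : ∀ v ∈ W, dg G W v ≤ D) (ht : t * q ≤ k)
    (hfew : ∀ v ∈ W, ∀ Y ⊆ W, (∀ y ∈ Y, k ≤ q * cd G W v y) → Y.card ≤ t) (u x : V) (hu : u ∈ W)
    (hx : x ∈ W) : q * ∑ y ∈ nb G W x, cd G W u y ≤ 2 * (D * k) := by
  classical
  obtain ⟨Y, hY⟩ : ∃ Y, Y = (nb G W x).filter (fun w => k ≤ q * cd G W u w) := ⟨_, rfl⟩
  have hYc : Y.card ≤ t := by
    refine hfew u hu Y ?_ ?_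
    · rw [hY]
      intro y hy
      rw [Finset.mem_filter] at hy
      exact (mem_nb.1 hy.1).1
    · intro y hy
      rw [hY, Finset.mem_filter] at hy
      exact hy.2
  have h1 : ∑ w ∈ nb G W x, cd G W u w = ∑ w ∈ Y, cd G W u w +
      ∑ w ∈ (nb G W x).filter (fun w => ¬ k ≤ q * cd G W u w), cd G W u w := by
    rw [hY]
    exact (Finset.sum_filter_add_sum_filter_not (nb G W x) _ _).symm
  have h2 : q * ∑ w ∈ Y, cd G W u w ≤ D * k := by
    calc q * ∑ w ∈ Y, cd G W u w ≤ q * ∑ _w ∈ Y, D := by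
          refine Nat.mul_le_mul_left _ (Finset.sum_le_sum fun w _ => ?_)
          exact (walk_cd_le G W u w).trans (hD u hu)
      _ = Y.card * q * D := by
          rw [Finset.sum_const, smul_eq_mul]
          ring
      _ ≤ k * D := Nat.mul_le_mul_right _ ((Nat.mul_le_mul_right _ hYc).trans ht)
      _ = D * k := by ring
  have h3 : q * ∑ w ∈ (nb G W x).filter (fun w => ¬ k ≤ q * cd G W u w), cd G W u w ≤ D * k := by
    calc q * ∑ w ∈ (nb G W x).filter (fun w => ¬ k ≤ q * cd G W u w), cd G W u w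
        = ∑ w ∈ (nb G W x).filter (fun w => ¬ k ≤ q * cd G W u w), q * cd G W u w := by
          rw [Finset.mul_sum]
      _ ≤ ∑ _w ∈ (nb G W x).filter (fun w => ¬ k ≤ q * cd G W u w), k := by
          refine Finset.sum_le_sum fun w hw => ?_
          rw [Finset.mem_filter] at hw
          omega
      _ ≤ ∑ _w ∈ nb G W x, k := Finset.sum_le_sum_of_subset (Finset.filter_subset _ _)
      _ = (nb G W x).card * k := by rw [Finset.sum_const, smul_eq_mul]
      _ ≤ D * k := Nat.mul_le_mul_right _ (hD x hx)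
  rw [h1, mul_add]
  omega

theorem P4_le (G : SimpleGraph V) (W : Finset V) (D k q t : ℕ)
    (hD : ∀ v ∈ W, dg G W v ≤ D) (ht : t * q ≤ k)
    (hfew : ∀ v ∈ W, ∀ Y ⊆ W, (∀ y ∈ Y, k ≤ q * cd G W v y) → Y.card ≤ t) :
    (q : ℝ) * P4 G W ≤ 2 * W.card * (D : ℝ) ^ 2 * k := by
  classical
  have h1 : q * ∑ v ∈ W, ∑ w ∈ W, cd G W v w ^ 2 ≤ 2 * W.card * D ^ 2 * k := by
    calc q * ∑ v ∈ W, ∑ w ∈ W, cd G W v w ^ 2 = ∑ v ∈ W, q * ∑ w ∈ W, cd G W v w ^ 2 := by
          rw [Finset.mul_sum]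
      _ ≤ ∑ _v ∈ W, 2 * (D * D * k) :=
          Finset.sum_le_sum fun v hv => walk_row4 G W D k q t hD ht hfew v hv
      _ = 2 * W.card * D ^ 2 * k := by
          rw [Finset.sum_const, smul_eq_mul]
          ring
  have h2 : P4 G W ≤ ((∑ v ∈ W, ∑ w ∈ W, cd G W v w ^ 2 : ℕ) : ℝ) := by
    unfold P4
    push_cast
    refine Finset.sum_le_sum fun v _ => ?_
    exact Finset.sum_le_sum_of_subset_of_nonneg (Finset.erase_subset _ _)
      fun _ _ _ => by positivity
  calc (q : ℝ) * P4 G W ≤ (q : ℝ) * ((∑ v ∈ W, ∑ w ∈ W, cd G W v w ^ 2 : ℕ) : ℝ) :=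
        mul_le_mul_of_nonneg_left h2 (Nat.cast_nonneg _)
    _ ≤ 2 * W.card * (D : ℝ) ^ 2 * k := by exact_mod_cast h1

theorem P6_le (G : SimpleGraph V) (W : Finset V) (D k q t : ℕ)
    (hD : ∀ v ∈ W, dg G W v ≤ D) (ht : t * q ≤ k)
    (hfew : ∀ v ∈ W, ∀ Y ⊆ W, (∀ y ∈ Y, k ≤ q * cd G W v y) → Y.card ≤ t) :
    (q : ℝ) * P6 G W ≤ 2 * W.card * (D : ℝ) ^ 4 * k := by
  classical
  have hx : ∀ u v : V, ∑ u' ∈ W, ∑ v' ∈ nb G W u', cd G W u u' * cd G W v v' =
      ∑ v' ∈ W, cd G W v v' * ∑ u' ∈ nb G W v', cd G W u u' := by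
    intro u v
    rw [Finset.sum_comm' (t' := W) (s' := fun v' => nb G W v')]
    · apply Finset.sum_congr rfl
      intro v' _
      rw [Finset.mul_sum]
      apply Finset.sum_congr rfl
      intro u' _
      ring
    · intro a b
      rw [mem_nb, mem_nb]
      constructor
      · rintro ⟨h1, h2, h3⟩
        exact ⟨⟨h1, h3.symm⟩, h2⟩
      · rintro ⟨⟨h1, h3⟩, h2⟩
        exact ⟨h1, h2, h3.symm⟩
  have h1 : q * ∑ u ∈ W, ∑ v ∈ nb G W u, ∑ u' ∈ W, ∑ v' ∈ nb G W u', cd G W u u' * cd G W v v' ≤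
      2 * W.card * D ^ 4 * k := by
    calc q * ∑ u ∈ W, ∑ v ∈ nb G W u, ∑ u' ∈ W, ∑ v' ∈ nb G W u', cd G W u u' * cd G W v v'
        = ∑ u ∈ W, ∑ v ∈ nb G W u, ∑ v' ∈ W, cd G W v v' *
            (q * ∑ u' ∈ nb G W v', cd G W u u') := by
          rw [Finset.mul_sum]
          apply Finset.sum_congr rfl
          intro u _
          rw [Finset.mul_sum]
          apply Finset.sum_congr rfl
          intro v _
          rw [hx, Finset.mul_sum]
          apply Finset.sum_congr rfl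
          intro v' _
          ring
      _ ≤ ∑ u ∈ W, ∑ v ∈ nb G W u, ∑ v' ∈ W, cd G W v v' * (2 * (D * k)) := by
          refine Finset.sum_le_sum fun u hu => Finset.sum_le_sum fun v _ =>
            Finset.sum_le_sum fun v' hv' => Nat.mul_le_mul_left _ ?_
          exact walk_row6 G W D k q t hD ht hfew u v' hu hv'
      _ ≤ ∑ u ∈ W, ∑ _v ∈ nb G W u, D * D * (2 * (D * k)) := by
          refine Finset.sum_le_sum fun u _ => Finset.sum_le_sum fun v hv => ?_
          rw [← Finset.sum_mul]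
          exact Nat.mul_le_mul_right _ (walk_sum_cd G W D hD v (mem_nb.1 hv).1)
      _ ≤ ∑ _u ∈ W, D * (D * D * (2 * (D * k))) := by
          refine Finset.sum_le_sum fun u hu => ?_
          rw [Finset.sum_const, smul_eq_mul]
          exact Nat.mul_le_mul_right _ (hD u hu)
      _ = 2 * W.card * D ^ 4 * k := by
          rw [Finset.sum_const, smul_eq_mul]
          ring
  have h2 : P6 G W ≤ ((∑ u ∈ W, ∑ v ∈ nb G W u, ∑ u' ∈ W, ∑ v' ∈ nb G W u',
      cd G W u u' * cd G W v v' : ℕ) : ℝ) := by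
    unfold P6
    push_cast
    refine Finset.sum_le_sum fun u _ => Finset.sum_le_sum fun v _ => ?_
    refine (Finset.sum_le_sum (g := fun u' => ∑ v' ∈ nb G W u',
      ((cd G W u u' : ℕ) : ℝ) * ((cd G W v v' : ℕ) : ℝ)) fun u' _ => ?_).trans ?_
    · exact Finset.sum_le_sum_of_subset_of_nonneg (Finset.erase_subset _ _)
        fun _ _ _ => by positivity
    · exact Finset.sum_le_sum_of_subset_of_nonneg (Finset.erase_subset _ _)
        fun _ _ _ => Finset.sum_nonneg fun _ _ => by positivity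
  calc (q : ℝ) * P6 G W ≤ (q : ℝ) * ((∑ u ∈ W, ∑ v ∈ nb G W u, ∑ u' ∈ W, ∑ v' ∈ nb G W u',
      cd G W u u' * cd G W v v' : ℕ) : ℝ) :=
        mul_le_mul_of_nonneg_left h2 (Nat.cast_nonneg _)
    _ ≤ 2 * W.card * (D : ℝ) ^ 4 * k := by exact_mod_cast h1

end Pool.Agent.Lib.MP_a2d8aa_co.Kf
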