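import Pool.Agent.Lib.MP_a2d8aa_co.Kf.Pos
import Pool.Agent.Lib.MP_a2d8aa_co.Kf.Kst
import Pool.Agent.Lib.MP_a2d8aa_co.Kf.Peel
import Pool.Agent.Lib.MP_a2d8aa_co.Kf.Image
import Pool.Agent.Lib.MP_a2d8aa_co.Kf.Walk
import Pool.Agent.Lib.MP_a2d8aa_co.Kf.Color
import Pool.Agent.Lib.MP_a2d8aa_co.Kf.Choice

/-!
# KF-CaseB (MP_a2d8aa_co)

A locally sparse subgraph with all degrees between `k/16` and `C k` has a star minor of minimum
degree at least `r k`.

Proof. `m = 128 r`, `g = k / (32 m)` (floor), `D = C k`. Then `g ≥ 1`, `32 m g ≤ k ≤ 64 m g`, and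
`2 m g ≤ dg G W v` (`32 m g ≤ k ≤ 16 dg`).
1. `exists_centres` with `lam = 2 r k`: `C₀ ⊆ W` with, for `L = good G W C₀ g`,
   `2 r k |C₀| + (3/4) ∑_W dg ≤ ∑_L dg G L + 8 m |W| + 2 r k |W|/m`. As `∑_W dg ≥ |W| k/16`,
   `2 r k/m = k/64`, `8 m ≤ k/64`: `2 r k |C₀| + |W| k/64 ≤ ∑_L dg G L = |eds G L|`.
   `C₀` is nonempty: otherwise `L` is empty (`g ≥ 1` neighbours in `C₀`) and `|W| k/64 ≤ 0`.
2. `exists_choice` (`L ⊆ W`, `C₀ ⊆ W`): `c` with
   `|coll| + |prs| ≤ |W| D/g + 2 P4/g² + P6/g⁴`. `kst` with `R = C`, for `v ∈ W` and the set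
   `nb G W v` (of size `≤ C k`; `dg G (nb G W v) y = cd G W v y`): at most
   `t = 2 s q C` vertices `y ∈ W` have `k ≤ q cd(v,y)`; `t q ≤ k` by `hk2`. So `P4_le`, `P6_le`:
   `P4 ≤ 2 |W| C² k³/q`, `P6 ≤ 2 |W| C⁴ k⁵/q`. With `1/g ≤ 64 m/k`:
   `|coll| + |prs| ≤ 64 m C |W| + (4 C² (64 m)² + 2 C⁴ (64 m)⁴) |W| k/q ≤ |W| k/128 + |W| k/128`
   as `q = 768 (64 m C)⁴` and `k ≥ 8192 m C`.
3. `card_le_image_add` for `S = ncs G L c`, `φ e = (c e.1, c e.2)` (its set of pairs is `prs`):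
   `|image| ≥ |ncs| - |prs| = |eds| - |coll| - |prs| ≥ 2 r k |C₀|`. The image is contained in the
   set of ordered pairs `(a, b) ∈ C₀²` adjacent in `Q = quo G L c`, so
   `2 (r k) |C₀| ≤ ∑_{a ∈ C₀} dg Q C₀ a`. `peel`, then `hasMin_of_star` (`IsStar G C₀ L c`, since
   `L ⊆ W \ C₀`).
-/

set_option autoImplicit false

namespace Pool.Agent.Lib.MP_a2d8aa_co.Kf

variable {n : ℕ}

private theorem cb_eds {V : Type*} (G : SimpleGraph V) (L : Finset V) :
    (eds G L).card = ∑ v ∈ L, dg G L v := by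
  classical
  unfold eds dg nb
  rw [Finset.card_filter, Finset.sum_product]
  refine Finset.sum_congr rfl fun v _ => ?_
  rw [Finset.card_filter]

private theorem cb_split {V : Type*} (G : SimpleGraph V) (L : Finset V) (c : V → V) :
    (coll G L c).card + (ncs G L c).card = (eds G L).card := by
  classical
  unfold coll ncs
  exact Finset.card_filter_add_card_filter_not (s := eds G L) (fun e => c e.1 = c e.2)

private theorem cb_image {V : Type*} (G : SimpleGraph V) (T L : Finset V) (c : V → V)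
    (hc : ∀ v ∈ L, c v ∈ T ∧ G.Adj v (c v)) :
    (ncs G L c).card ≤ ∑ a ∈ T, dg (quo G L c) T a + (prs G L c).card := by
  classical
  have h1 := card_le_image_add (ncs G L c) (fun e : V × V => (c e.1, c e.2))
  have h2 : (((ncs G L c) ×ˢ (ncs G L c)).filter (fun p : (V × V) × (V × V) => p.1 ≠ p.2 ∧
      (fun e : V × V => (c e.1, c e.2)) p.1 = (fun e : V × V => (c e.1, c e.2)) p.2)).card =
      (prs G L c).card := by
    unfold prs
    congr 1
  have h3 : (ncs G L c).image (fun e : V × V => (c e.1, c e.2)) ⊆ eds (quo G L c) T := by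
    intro x hx
    rw [Finset.mem_image] at hx
    obtain ⟨e, he, rfl⟩ := hx
    unfold ncs eds at he
    rw [Finset.mem_filter, Finset.mem_filter, Finset.mem_product] at he
    obtain ⟨⟨⟨hu, hv⟩, huv⟩, hne⟩ := he
    unfold eds
    rw [Finset.mem_filter, Finset.mem_product]
    exact ⟨⟨(hc _ hu).1, (hc _ hv).1⟩, hne, e.1, e.2, Or.inr ⟨hu, rfl⟩, Or.inr ⟨hv, rfl⟩, huv⟩
  have h4 := Finset.card_le_card h3
  rw [cb_eds] at h4
  rw [← h2]
  exact h1.trans (Nat.add_le_add_right h4 _)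

private theorem cb_good {V : Type*} (G : SimpleGraph V) (W C₀ : Finset V) (g : ℕ) (v : V)
    (hv : v ∈ good G W C₀ g) : (v ∈ W ∧ v ∉ C₀) ∧ g ≤ dg G C₀ v := by
  classical
  unfold good at hv
  rw [Finset.mem_filter, Finset.mem_sdiff] at hv
  exact hv

private theorem cb_cd {V : Type*} (G : SimpleGraph V) (W : Finset V) (v y : V) :
    dg G (nb G W v) y = cd G W v y := by
  classical
  unfold dg cd
  congr 1
  ext w
  rw [mem_nb, Finset.mem_inter, mem_nb, mem_nb]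
  tauto

private theorem cb_num {w k g m C q P4 P6 : ℝ} (hw : 0 ≤ w) (hk : 0 < k) (hg : 0 < g)
    (hm : 1 ≤ m) (hC : 1 ≤ C) (hkg : k ≤ 64 * m * g) (hq : q = 768 * (64 * m * C) ^ 4)
    (hk1 : 8192 * m * C ≤ k) (h4 : q * P4 ≤ 2 * w * (C * k) ^ 2 * k)
    (h6 : q * P6 ≤ 2 * w * (C * k) ^ 4 * k) :
    w * (C * k) / g + 2 * P4 / g ^ 2 + P6 / g ^ 4 ≤ w * k / 64 := by
  have hq0 : 0 < q := by rw [hq]; positivity
  set x := k / g with hx
  have hx0 : 0 < x := div_pos hk hg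
  have hx1 : x ≤ 64 * m := by
    rw [hx, div_le_iff₀ hg]
    exact hkg
  have hkx : k = x * g := by rw [hx]; field_simp
  set B := 64 * m * C with hB
  have hB1 : 1 ≤ B := by
    rw [hB]
    nlinarith
  have hxC : x * C ≤ B := by
    rw [hB]
    exact mul_le_mul_of_nonneg_right hx1 (by linarith)
  have hxC0 : 0 < x * C := by positivity
  have e1 : w * (C * k) / g = w * (x * C) := by
    rw [hx]; field_simp
  have e1' : w * (x * C) ≤ w * k / 128 := by
    have : x * C ≤ k / 128 := by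
      rw [le_div_iff₀ (by norm_num)]
      nlinarith
    calc w * (x * C) ≤ w * (k / 128) := mul_le_mul_of_nonneg_left this hw
      _ = w * k / 128 := by ring
  have e2 : 2 * P4 / g ^ 2 ≤ 4 * w * k * (x * C) ^ 2 / q := by
    rw [div_le_div_iff₀ (by positivity) hq0]
    have : 2 * (q * P4) ≤ 2 * (2 * w * (C * k) ^ 2 * k) := by linarith
    have h7 : 2 * (2 * w * (C * k) ^ 2 * k) = 4 * w * k * (x * C) ^ 2 * g ^ 2 := by
      rw [hx]; field_simp; ring
    linarith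
  have e3 : P6 / g ^ 4 ≤ 2 * w * k * (x * C) ^ 4 / q := by
    rw [div_le_div_iff₀ (by positivity) hq0]
    have h7 : 2 * w * (C * k) ^ 4 * k = 2 * w * k * (x * C) ^ 4 * g ^ 4 := by
      rw [hx]; field_simp
    linarith
  have hb2 : (x * C) ^ 2 ≤ B ^ 4 := by
    calc (x * C) ^ 2 ≤ B ^ 2 := pow_le_pow_left₀ hxC0.le hxC 2
      _ ≤ B ^ 4 := pow_le_pow_right₀ hB1 (by norm_num)
  have hb4 : (x * C) ^ 4 ≤ B ^ 4 := pow_le_pow_left₀ hxC0.le hxC 4
  have hwk : 0 ≤ w * k := mul_nonneg hw hk.le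
  have e4 : 4 * w * k * (x * C) ^ 2 / q ≤ 4 * w * k / 768 := by
    rw [div_le_div_iff₀ hq0 (by norm_num), hq]
    have : 4 * w * k * (x * C) ^ 2 ≤ 4 * w * k * B ^ 4 := by
      have := mul_le_mul_of_nonneg_left hb2 (by linarith : 0 ≤ 4 * (w * k))
      linarith
    linarith
  have e5 : 2 * w * k * (x * C) ^ 4 / q ≤ 2 * w * k / 768 := by
    rw [div_le_div_iff₀ hq0 (by norm_num), hq]
    have : 2 * w * k * (x * C) ^ 4 ≤ 2 * w * k * B ^ 4 := by
      have := mul_le_mul_of_nonneg_left hb4 (by linarith : 0 ≤ 2 * (w * k))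
      linarith
    linarith
  rw [e1]
  linarith

theorem case_B {G : SimpleGraph (Fin n)} {U W : Finset (Fin n)} {s M k r C m q : ℕ}
    (hs : 1 ≤ s) (hr : 1 ≤ r) (hC : 1 ≤ C) (hm : m = 128 * r) (hq : q = 768 * (64 * m * C) ^ 4)
    (hk1 : 8192 * m * C ≤ k) (hk2 : 2 * s * q * C * q ≤ k)
    (hM : 2 * q * (2 * s * q * C).choose s < M) (hF : Few G U s M k) (hW : W ⊆ U)
    (hne : W.Nonempty) (hlow : ∀ v ∈ W, k ≤ 16 * dg G W v)
    (hhigh : ∀ v ∈ W, dg G W v ≤ C * k) : HasMin G (r * k) := by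
  classical
  have hm128 : 128 ≤ m := by omega
  have hmpos : 0 < m := by omega
  have hk8 : 8192 * m ≤ k := by
    have : 8192 * m * 1 ≤ 8192 * m * C := Nat.mul_le_mul_left _ hC
    omega
  have hkpos : 0 < k := by omega
  obtain ⟨g, hgdef⟩ : ∃ g, g = k / (32 * m) := ⟨_, rfl⟩
  have h32 : 0 < 32 * m := by omega
  have hg1 : 32 * m * g ≤ k := by
    rw [hgdef]
    exact Nat.mul_div_le _ _
  have hg3 : 1 ≤ g := by
    rw [hgdef, Nat.le_div_iff_mul_le h32]
    omega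
  have hg2 : k ≤ 64 * m * g := by
    have h1 : k < 32 * m * (k / (32 * m) + 1) := Nat.lt_mul_div_succ k h32
    rw [← hgdef] at h1
    have h2 : 32 * m * (g + 1) ≤ 32 * m * (2 * g) := Nat.mul_le_mul_left _ (by omega)
    have h3 : 32 * m * (2 * g) = 64 * m * g := by ring
    omega
  have hgd : ∀ v ∈ W, 2 * m * g ≤ dg G W v := by
    intro v hv
    have h1 := hlow v hv
    have h2 : 32 * m * g = 16 * (2 * m * g) := by ring
    omega
  have hpos : ∀ v ∈ W, 1 ≤ dg G W v := by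
    intro v hv
    have h1 := hlow v hv
    omega
  obtain ⟨C₀, hC₀, hcen⟩ := exists_centres G W m g (by omega) hgd hpos (2 * (r : ℝ) * k)
  obtain ⟨L, hL⟩ : ∃ L, L = good G W C₀ g := ⟨_, rfl⟩
  rw [← hL] at hcen
  have hLmem : ∀ v ∈ L, (v ∈ W ∧ v ∉ C₀) ∧ g ≤ dg G C₀ v := by
    intro v hv
    rw [hL] at hv
    exact cb_good G W C₀ g v hv
  have hLW : L ⊆ W := fun v hv => (hLmem v hv).1.1
  have hW0 : 0 < W.card := Finset.card_pos.2 hne
  have hWR : (0 : ℝ) < W.card := by exact_mod_cast hW0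
  have hkR : (0 : ℝ) < k := by exact_mod_cast hkpos
  have hmR : (0 : ℝ) < m := by exact_mod_cast hmpos
  have hsum : (W.card : ℝ) * k / 16 ≤ ∑ v ∈ W, (dg G W v : ℝ) := by
    have h1 : ∑ v ∈ W, ((k : ℝ) / 16) ≤ ∑ v ∈ W, (dg G W v : ℝ) := by
      refine Finset.sum_le_sum fun v hv => ?_
      have h2 : (k : ℝ) ≤ 16 * (dg G W v : ℝ) := by exact_mod_cast hlow v hv
      linarith
    rw [Finset.sum_const, nsmul_eq_mul] at h1
    linarith
  have hlamm : 2 * (r : ℝ) * k * (W.card : ℝ) / m = W.card * k / 64 := by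
    have hr0 : (0 : ℝ) < r := by exact_mod_cast hr
    have h1 : (m : ℝ) = 128 * r := by exact_mod_cast hm
    rw [h1]
    field_simp
    ring
  have h8m : 8 * (m : ℝ) * (W.card : ℝ) ≤ W.card * k / 64 := by
    have h1 : (8192 * m : ℝ) ≤ k := by exact_mod_cast hk8
    have h2 : 8 * (m : ℝ) ≤ k / 64 := by linarith
    have h3 := mul_le_mul_of_nonneg_right h2 hWR.le
    linarith
  have heds : ((eds G L).card : ℝ) = ∑ v ∈ L, (dg G L v : ℝ) := by
    rw [cb_eds]
    push_cast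
    rfl
  have hmain : 2 * (r : ℝ) * k * C₀.card + W.card * k / 64 ≤ (eds G L).card := by
    rw [heds]
    rw [hlamm] at hcen
    linarith
  have hC₀ne : C₀.Nonempty := by
    rw [Finset.nonempty_iff_ne_empty]
    intro h0
    have hLe : L = ∅ := by
      rw [Finset.eq_empty_iff_forall_notMem]
      intro v hv
      have h1 := (hLmem v hv).2
      rw [h0] at h1
      have h2 : dg G ∅ v = 0 := by
        unfold dg nb
        simp
      omega
    rw [heds, hLe, Finset.sum_empty, h0, Finset.card_empty] at hmain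
    have : (0 : ℝ) < W.card * k / 64 := by positivity
    simp only [Nat.cast_zero, mul_zero, zero_add] at hmain
    linarith
  obtain ⟨c, hc, hcp⟩ := exists_choice G W C₀ L g (C * k) hg3 hC₀ hLW (fun v hv => (hLmem v hv).2)
    hhigh
  have hqpos : 1 ≤ q := by
    rw [hq]
    have : 0 < (64 * m * C) ^ 4 := by positivity
    omega
  have hfew : ∀ v ∈ W, ∀ Y ⊆ W, (∀ y ∈ Y, k ≤ q * cd G W v y) → Y.card ≤ 2 * s * q * C := by
    intro v hv Y hY hYq
    refine le_of_lt (kst (W := nb G W v) hs hqpos hC hkpos hM hF ?_ (hY.trans hW) (hhigh v hv)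
      (fun y hy => ?_))
    · intro w hw
      exact hW (mem_nb.1 hw).1
    · rw [cb_cd]
      exact hYq y hy
  have hP4 := P4_le G W (C * k) k q (2 * s * q * C) hhigh hk2 hfew
  have hP6 := P6_le G W (C * k) k q (2 * s * q * C) hhigh hk2 hfew
  push_cast at hP4 hP6 hcp
  have hnum := cb_num (w := (W.card : ℝ)) (k := (k : ℝ)) (g := (g : ℝ)) (m := (m : ℝ))
    (C := (C : ℝ)) (q := (q : ℝ)) (P4 := P4 G W) (P6 := P6 G W) hWR.le hkR
    (by exact_mod_cast hg3) (by exact_mod_cast hmpos) (by exact_mod_cast hC)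
    (by exact_mod_cast hg2) (by exact_mod_cast hq) (by exact_mod_cast hk1) hP4 hP6
  have hsplit : ((coll G L c).card : ℝ) + (ncs G L c).card = (eds G L).card := by
    exact_mod_cast cb_split G L c
  have himg : ((ncs G L c).card : ℝ) ≤
      (∑ a ∈ C₀, dg (quo G L c) C₀ a : ℕ) + (prs G L c).card := by
    exact_mod_cast cb_image G C₀ L c hc
  have hfin : 2 * (r : ℝ) * k * C₀.card ≤ (∑ a ∈ C₀, dg (quo G L c) C₀ a : ℕ) := by
    linarith
  have hfin2 : 2 * (r * k) * C₀.card ≤ ∑ a ∈ C₀, dg (quo G L c) C₀ a := by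
    have h1 : ((2 * (r * k) * C₀.card : ℕ) : ℝ) ≤ (∑ a ∈ C₀, dg (quo G L c) C₀ a : ℕ) := by
      push_cast
      push_cast at hfin
      linarith
    exact_mod_cast h1
  obtain ⟨W', hW', hne', hd'⟩ := peel (quo G L c) (r * k) C₀ hC₀ne hfin2
  refine hasMin_of_star (T := C₀) (L := L) (c := c) ⟨?_, hc⟩ hW' hne' hd'
  rw [Finset.disjoint_left]
  intro v hv hvL
  exact (hLmem v hvL).1.2 hv

end Pool.Agent.Lib.MP_a2d8aa_co.Kf
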