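import Mathlib

/-!
Locally sparse graphs and the positive semidefinite graph complement conjecture
(MP_a2d8aa_co): definitions for the board KF.
-/

set_option autoImplicit false

namespace Pool.Agent.Lib.MP_a2d8aa_co.Kf

variable {V : Type*}

open Classical in
/-- the neighbours of `v` in `W` -/
noncomputable def nb (G : SimpleGraph V) (W : Finset V) (v : V) : Finset V :=
  W.filter (fun w => G.Adj v w)

theorem mem_nb {G : SimpleGraph V} {W : Finset V} {v w : V} :
    w ∈ nb G W v ↔ w ∈ W ∧ G.Adj v w := by
  classical
  simp [nb]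

/-- the number of neighbours of `v` in `W` -/
noncomputable def dg (G : SimpleGraph V) (W : Finset V) (v : V) : ℕ := (nb G W v).card

open Classical in
/-- the number of common neighbours of `u` and `v` in `W` -/
noncomputable def cd (G : SimpleGraph V) (W : Finset V) (u v : V) : ℕ :=
  (nb G W u ∩ nb G W v).card

open Classical in
/-- any `s` vertices of `W` have at most `k / M` common neighbours in `W` -/
def Few (G : SimpleGraph V) (W : Finset V) (s M k : ℕ) : Prop :=
  ∀ X ⊆ W, X.card = s → M * (W.filter (fun w => ∀ x ∈ X, G.Adj x w)).card ≤ k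

/-- `c` sends `v ∈ L` to a neighbour of `v` in `T` -/
def IsStar (G : SimpleGraph V) (T L : Finset V) (c : V → V) : Prop :=
  Disjoint T L ∧ ∀ v ∈ L, c v ∈ T ∧ G.Adj v (c v)

/-- the star with centre `a` -/
def InBlk (L : Finset V) (c : V → V) (a v : V) : Prop := v = a ∨ (v ∈ L ∧ c v = a)

/-- the graph on the centres obtained by contracting the stars -/
def quo (G : SimpleGraph V) (L : Finset V) (c : V → V) : SimpleGraph V where
  Adj a b := a ≠ b ∧ ∃ u v, InBlk L c a u ∧ InBlk L c b v ∧ G.Adj u v
  symm := ⟨fun _ _ h => ⟨h.1.symm, by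
    obtain ⟨u, v, hu, hv, huv⟩ := h.2
    exact ⟨v, u, hv, hu, huv.symm⟩⟩⟩
  loopless := ⟨fun _ h => h.1 rfl⟩

/-- the expectation of `f` under the product of the distributions `p i` -/
noncomputable def Ex {ι β : Type*} [Fintype ι] [DecidableEq ι] [Fintype β] (p : ι → β → ℝ)
    (f : (ι → β) → ℝ) : ℝ :=
  ∑ c : ι → β, (∏ i, p i (c i)) * f c

/-- the sum of the squares of the codegrees -/
noncomputable def P4 (G : SimpleGraph V) (W : Finset V) : ℝ := by
  classical exact ∑ v ∈ W, ∑ w ∈ W.erase v, ((cd G W v w : ℕ) : ℝ) ^ 2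

/-- the weighted number of pairs of edges `uv`, `u'v'`, weight `cd(u,u') cd(v,v')` -/
noncomputable def P6 (G : SimpleGraph V) (W : Finset V) : ℝ := by
  classical exact ∑ u ∈ W, ∑ v ∈ nb G W u, ∑ u' ∈ W.erase u, ∑ v' ∈ (nb G W u').erase v,
    ((cd G W u u' : ℕ) : ℝ) * ((cd G W v v' : ℕ) : ℝ)

open Classical in
/-- the non-centres with at least `g` centres among their neighbours -/
noncomputable def good (G : SimpleGraph V) (W C : Finset V) (g : ℕ) : Finset V :=
  (W \ C).filter (fun v => g ≤ dg G C v)

open Classical in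
/-- the ordered edges inside `L` -/
noncomputable def eds (G : SimpleGraph V) (L : Finset V) : Finset (V × V) :=
  (L ×ˢ L).filter (fun e => G.Adj e.1 e.2)

open Classical in
/-- the ordered edges inside `L` which are contracted -/
noncomputable def coll (G : SimpleGraph V) (L : Finset V) (c : V → V) : Finset (V × V) :=
  (eds G L).filter (fun e => c e.1 = c e.2)

open Classical in
/-- the ordered edges inside `L` which are not contracted -/
noncomputable def ncs (G : SimpleGraph V) (L : Finset V) (c : V → V) : Finset (V × V) :=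
  (eds G L).filter (fun e => c e.1 ≠ c e.2)

open Classical in
/-- the pairs of different non-contracted ordered edges with the same image -/
noncomputable def prs (G : SimpleGraph V) (L : Finset V) (c : V → V) :
    Finset ((V × V) × (V × V)) :=
  (ncs G L c ×ˢ ncs G L c).filter (fun p => p.1 ≠ p.2 ∧
    (fun e : V × V => (c e.1, c e.2)) p.1 = (fun e : V × V => (c e.1, c e.2)) p.2)

end Pool.Agent.Lib.MP_a2d8aa_co.Kf
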