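import Pool.Agent.Lib.MP_a2d8aa_co.Kf.Defs

/-!
# KF-Free (MP_a2d8aa_co)

A graph without `K_{s,s}`: any `s` vertices have at most `s - 1` common neighbours.
Proof. Let `X ⊆ U`, `|X| = s`, `Z` the set of the common neighbours of `X` in `U`. If `|Z| ≥ s`,
take injections `Fin s → X`, `Fin s → Z` (`Finset.equivFin` / `Finset.orderEmbOfFin`-style or
`Finset.exists_subset_card_eq`); `X` and `Z` are disjoint because a graph has no loops, so they
form a copy of `completeBipartiteGraph (Fin s) (Fin s)`. Hence `|Z| < s` and `M |Z| ≤ M s ≤ k`.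
-/

set_option autoImplicit false

namespace Pool.Agent.Lib.MP_a2d8aa_co.Kf

theorem few_of_free {V : Type*} (H : SimpleGraph V) (s M k : ℕ) (U : Finset V)
    (hfree : (completeBipartiteGraph (Fin s) (Fin s)).Free H) (hk : M * s ≤ k) :
    Few H U s M k := by
  classical
  intro X _ hXs
  have hlt : (U.filter (fun w => ∀ x ∈ X, H.Adj x w)).card < s := by
    by_contra hge
    rw [not_lt] at hge
    obtain ⟨Z, hZ, hZs⟩ := Finset.exists_subset_card_eq hge
    let eX : Fin s ≃ X := (X.equivFinOfCardEq hXs).symm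
    let eZ : Fin s ≃ Z := (Z.equivFinOfCardEq hZs).symm
    have hadj : ∀ i j : Fin s, H.Adj (eX i : V) (eZ j : V) := fun i j =>
      (Finset.mem_filter.1 (hZ (eZ j).2)).2 _ (eX i).2
    let f : Fin s ⊕ Fin s → V := Sum.elim (fun i => (eX i : V)) (fun j => (eZ j : V))
    have hf : Function.Injective f := by
      rintro (i | i) (j | j) h
      · exact congrArg Sum.inl (eX.injective (Subtype.ext h))
      · exact absurd (show (eX i : V) = (eZ j : V) from h) (hadj i j).ne
      · exact absurd (show (eZ i : V) = (eX j : V) from h) (hadj j i).ne'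
      · exact congrArg Sum.inr (eZ.injective (Subtype.ext h))
    apply hfree
    refine ⟨⟨⟨f, ?_⟩, hf⟩⟩
    rintro (i | i) (j | j) h
    · simp at h
    · exact hadj i j
    · exact (hadj j i).symm
    · simp at h
  calc M * (U.filter (fun w => ∀ x ∈ X, H.Adj x w)).card ≤ M * s :=
        Nat.mul_le_mul_left _ hlt.le
    _ ≤ k := hk

end Pool.Agent.Lib.MP_a2d8aa_co.Kf
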