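import Pool.Agent.Lib.MP_a2d8aa_co.Kf.CaseA
import Pool.Agent.Lib.MP_a2d8aa_co.Kf.CaseB

/-!
# KF-Main (MP_a2d8aa_co)

The combinatorial theorem. Proof. `C = 64 s r`, `m = 128 r`, `q = 768 (64 m C)⁴`,
`M = 2 q C(2 s q C, s) + 2 4 C(2 s 4 r, s) + 1`, `k₀ = 8192 m C + 2 s q C q + 14`.
Let `N = |U|`, `S = {v ∈ U : C k < dg G U v}`, `L = U \ S`, `L₁ = {v ∈ L : k ≤ 2 dg G S v}`.
`sum_dg_le`: `∑_U dg ≤ 2 k N`, so `C k |S| ≤ 2 k N`, `C |S| ≤ 2 N`.
Case `N ≤ 4 |L₁|`: with `t₀ = 2 s 4 r`, `C = 8 t₀`, `8 t₀ |S| ≤ 2 N ≤ 8 |L₁|`, so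
`t₀ |S| ≤ |L₁|`, and `case_A` applies to `S`, `L₁`.
Case `4 |L₁| < N`: `|S| ≤ N/32`, so `|L \ L₁| ≥ N/2`. For `v ∈ L \ L₁`, `2 dg G S v < k`, so
`2 dg G L v = 2 dg G U v - 2 dg G S v ≥ k`. Hence `4 ∑_L dg G L ≥ N k ≥ |L| k`. `peel` with
`d = k / 8` (floor), `T = L` gives `W ⊆ L`, nonempty, with `dg G W v ≥ k / 8`, so
`16 dg G W v ≥ k` (`k ≥ 14`), and `dg G W v ≤ dg G U v ≤ C k` as `v ∉ S`. Apply `case_B`.
-/

set_option autoImplicit false

namespace Pool.Agent.Lib.MP_a2d8aa_co.Kf

private theorem Main_mono {V : Type*} (G : SimpleGraph V) {W U : Finset V} (h : W ⊆ U) (v : V) :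
    dg G W v ≤ dg G U v := by
  classical
  unfold dg nb
  exact Finset.card_le_card (Finset.filter_subset_filter _ h)

private theorem Main_split {V : Type*} [DecidableEq V] (G : SimpleGraph V) (U : Finset V) (P : V → Prop)
    [DecidablePred P] (v : V) :
    dg G U v = dg G (U.filter P) v + dg G (U.filter fun x => ¬ P x) v := by
  classical
  have e : ∀ A : Finset V, dg G A v = ∑ w ∈ A, if G.Adj v w then 1 else 0 := by
    intro A
    unfold dg nb
    rw [Finset.card_filter]
  rw [e, e, e]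
  exact (Finset.sum_filter_add_sum_filter_not U P _).symm

theorem main_comb (s r : ℕ) (hs : 1 ≤ s) (hr : 1 ≤ r) :
    ∃ M k₀ : ℕ, ∀ (n k : ℕ) (G : SimpleGraph (Fin n)) (U : Finset (Fin n)), k₀ ≤ k →
      U.Nonempty → (∀ u ∈ U, k ≤ dg G U u) →
      (∀ W ⊆ U, W.Nonempty → ∃ u ∈ W, dg G W u ≤ k) → Few G U s M k → HasMin G (r * k) := by
  classical
  obtain ⟨C, hC⟩ : ∃ C : ℕ, C = 64 * s * r := ⟨_, rfl⟩
  obtain ⟨m, hm⟩ : ∃ m : ℕ, m = 128 * r := ⟨_, rfl⟩
  obtain ⟨q, hq⟩ : ∃ q : ℕ, q = 768 * (64 * m * C) ^ 4 := ⟨_, rfl⟩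
  have hsr : 1 ≤ s * r := Nat.mul_le_mul hs hr
  have hC64 : 64 ≤ C := by
    rw [hC, mul_assoc]
    omega
  refine ⟨2 * q * (2 * s * q * C).choose s + 2 * 4 * (2 * s * 4 * r).choose s + 1,
    8192 * m * C + 2 * s * q * C * q + 14, fun n k G U hk hne hdeg hdegen hF => ?_⟩
  have hk14 : 14 ≤ k := le_trans (Nat.le_add_left _ _) hk
  have hk1 : 8192 * m * C ≤ k := le_trans (le_trans (Nat.le_add_right _ _) (Nat.le_add_right _ _)) hk
  have hk2 : 2 * s * q * C * q ≤ k := le_trans (le_trans (Nat.le_add_left _ _) (Nat.le_add_right _ _)) hk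
  have hsum := sum_dg_le G k U hdegen U subset_rfl
  set S := U.filter fun v => C * k < dg G U v with hS
  set L := U.filter fun v => ¬ C * k < dg G U v with hL
  set L1 := L.filter fun v => k ≤ 2 * dg G S v with hL1
  have hSU : S ⊆ U := Finset.filter_subset _ _
  have hLU : L ⊆ U := Finset.filter_subset _ _
  have hL1L : L1 ⊆ L := Finset.filter_subset _ _
  have hdisSL : Disjoint S L := Finset.disjoint_filter_filter_not _ _ _
  have hcardSL : S.card + L.card = U.card := Finset.card_filter_add_card_filter_not _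
  have hN : 0 < U.card := Finset.card_pos.mpr hne
  -- `C |S| ≤ 2 N`
  have hCS : C * S.card ≤ 2 * U.card := by
    have h1 : S.card * (C * k) ≤ ∑ a ∈ S, dg G U a := by
      have := Finset.card_nsmul_le_sum S (fun a => dg G U a) (C * k) (fun a ha => by
        rw [hS, Finset.mem_filter] at ha
        exact ha.2.le)
      rwa [smul_eq_mul] at this
    have h2 : ∑ a ∈ S, dg G U a ≤ ∑ a ∈ U, dg G U a :=
      Finset.sum_le_sum_of_subset hSU
    have h3 : (C * S.card) * k ≤ (2 * U.card) * k := by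
      calc (C * S.card) * k = S.card * (C * k) := by ring
        _ ≤ 2 * k * U.card := le_trans h1 (le_trans h2 hsum)
        _ = (2 * U.card) * k := by ring
    exact Nat.le_of_mul_le_mul_right h3 (by omega)
  rcases le_or_gt U.card (4 * L1.card) with hcase | hcase
  · -- many vertices with many neighbours in `S`
    refine case_A (G := G) (U := U) (S := S) (L := L1) hs hr (by omega) ?_ hF hSU (hL1L.trans hLU)
      (hdisSL.mono_right hL1L) ?_ ?_ ?_
    · omega
    · rw [← Finset.card_pos]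
      omega
    · intro v hv
      rw [hL1, Finset.mem_filter] at hv
      exact hv.2
    · have h1 : 8 * (2 * s * 4 * r * S.card) ≤ 8 * L1.card := by
        calc 8 * (2 * s * 4 * r * S.card) = C * S.card := by rw [hC]; ring
          _ ≤ 2 * U.card := hCS
          _ ≤ 8 * L1.card := by omega
      omega
  · -- the vertices of `L` with few neighbours in `S`
    have hS32 : 64 * S.card ≤ 2 * U.card := le_trans (Nat.mul_le_mul_right _ hC64) hCS
    have hcardL : (L.filter fun v => ¬ k ≤ 2 * dg G S v).card + L1.card = L.card := by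
      rw [add_comm]
      exact Finset.card_filter_add_card_filter_not _
    set L2 := L.filter fun v => ¬ k ≤ 2 * dg G S v with hL2
    have hL2N : U.card ≤ 2 * L2.card := by omega
    have hdegL : ∀ v ∈ L2, k ≤ 2 * dg G L v := by
      intro v hv
      rw [hL2, Finset.mem_filter] at hv
      have h1 := hdeg v (hLU hv.1)
      have h2 := Main_split G U (fun v => C * k < dg G U v) v
      rw [← hS, ← hL] at h2
      have h3 := hv.2
      omega
    have hLne : L.Nonempty := by
      rw [← Finset.card_pos]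
      omega
    have hsumL : L.card * k ≤ 4 * ∑ a ∈ L, dg G L a := by
      have h1 : L2.card * k ≤ ∑ a ∈ L2, 2 * dg G L a := by
        have := Finset.card_nsmul_le_sum L2 (fun a => 2 * dg G L a) k hdegL
        rwa [smul_eq_mul] at this
      have h2 : ∑ a ∈ L2, dg G L a ≤ ∑ a ∈ L, dg G L a :=
        Finset.sum_le_sum_of_subset (Finset.filter_subset _ _)
      rw [← Finset.mul_sum] at h1
      have h3 : L.card * k ≤ (2 * L2.card) * k := Nat.mul_le_mul_right _ (by omega)
      have h4 : (2 * L2.card) * k = 2 * (L2.card * k) := by ring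
      omega
    obtain ⟨W, hWL, hWne, hWdeg⟩ := peel G (k / 8) L hLne (by
      have h1 : 8 * (k / 8) ≤ k := Nat.mul_div_le k 8
      have h2 : 8 * (k / 8) * L.card ≤ k * L.card := Nat.mul_le_mul_right _ h1
      have h3 : 8 * (k / 8) * L.card = 4 * (2 * (k / 8) * L.card) := by ring
      have h4 : k * L.card = L.card * k := mul_comm _ _
      omega)
    refine case_B (G := G) (U := U) (W := W) (s := s) (k := k) (r := r) (C := C) (m := m) (q := q)
      hs hr (by omega) hm hq hk1 hk2 ?_ hF (hWL.trans hLU) hWne ?_ ?_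
    · omega
    · intro v hv
      have h1 := hWdeg v hv
      omega
    · intro v hv
      have h1 := hWL hv
      rw [hL, Finset.mem_filter] at h1
      exact le_trans (Main_mono G (hWL.trans hLU) v) (not_lt.mp h1.2)

end Pool.Agent.Lib.MP_a2d8aa_co.Kf
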