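import Pool.Agent.Lib.MP_a2d8aa_co.Rg.Transfer
import Pool.Agent.Lib.MP_a2d8aa_co.Kf.Defs

/-!
Minors and regular representations of the complement: the minimum degree of a minor
(MP_a2d8aa_co).
-/

set_option autoImplicit false

namespace Pool.Agent.Lib.MP_a2d8aa_co.Kf

open Pool.Agent.Lib.MP_a2d8aa_co.Rg

variable {n : ℕ} {d : ℕ}

/-- the complement of `G[W]` has a regular representation in dimension `|W| - d` -/
def PosK (d : ℕ) (W : Finset (Fin n)) (G : SimpleGraph (Fin n)) : Prop :=
  d ≤ W.card ∧ Reg (coOn W G) (W.card - d)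

theorem PosK.of_ctr {W : Finset (Fin n)} {G : SimpleGraph (Fin n)} {x y : Fin n} (hx : x ∈ W)
    (hy : y ∈ W) (hxy : G.Adj x y) (h : PosK d (W.erase y) (ctr G x y)) : PosK d W G := by
  have hc : (W.erase y).card = W.card - 1 := Finset.card_erase_of_mem hy
  have hpos : 0 < W.card := Finset.card_pos.2 ⟨y, hy⟩
  obtain ⟨h5, h⟩ := h
  rw [hc] at h5 h
  refine ⟨by omega, ?_⟩
  have h1 : W.card - d = W.card - 1 - d + 1 := by omega
  rw [h1]
  refine Reg.merge (F' := coOn (W.erase y) (ctr G x y)) (x := x) (a := y) hxy.ne ?_ ?_ ?_ h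
  · exact fun hh => hh.2.2.2 hxy
  · intro i j hiy hjy hix hjx hij
    refine ⟨Finset.mem_erase.2 ⟨hiy, hij.1⟩, Finset.mem_erase.2 ⟨hjy, hij.2.1⟩, hij.2.2.1, ?_⟩
    rintro ⟨-, h2 | h2 | h2⟩
    · exact hij.2.2.2 h2
    · exact hix h2.1
    · exact hjx h2.1
  · intro j hjy hxj hyj
    refine ⟨Finset.mem_erase.2 ⟨hxy.ne, hx⟩, Finset.mem_erase.2 ⟨hjy, hxj.2.1⟩, hxj.2.2.1, ?_⟩
    rintro ⟨-, h2 | h2 | h2⟩
    · exact hxj.2.2.2 h2
    · exact hyj.2.2.2 h2.2
    · exact hxj.2.2.1 h2.1.symm

theorem PosK.of_delete {W : Finset (Fin n)} {G : SimpleGraph (Fin n)} {y : Fin n}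
    (hy : y ∈ W) (h : PosK d (W.erase y) G) : PosK d W G := by
  have hc : (W.erase y).card = W.card - 1 := Finset.card_erase_of_mem hy
  have hpos : 0 < W.card := Finset.card_pos.2 ⟨y, hy⟩
  obtain ⟨h5, h⟩ := h
  rw [hc] at h5 h
  refine ⟨by omega, ?_⟩
  have h1 : W.card - d = W.card - 1 - d + 1 := by omega
  rw [h1]
  exact Reg.delete (F' := coOn (W.erase y) G) y (fun i j hi hj hij =>
    ⟨Finset.mem_erase.2 ⟨hi, hij.1⟩, Finset.mem_erase.2 ⟨hj, hij.2.1⟩, hij.2.2⟩) h

theorem PosK.transfer {G' : SimpleGraph (Fin n)} {W' : Finset (Fin n)} (hd : 1 ≤ d) (hP : PosK d W' G') :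
    ∀ (m : ℕ) (W : Finset (Fin n)) (G : SimpleGraph (Fin n)), W.card = m →
      RMin G W G' W' → PosK d W G := by
  classical
  intro m
  induction m with
  | zero =>
    intro W G hW hR
    obtain ⟨B, hB, -, -⟩ := hR
    have h5 : 0 < W'.card := lt_of_lt_of_le hd hP.1
    obtain ⟨x, hx⟩ := Finset.card_pos.1 h5
    have h1 := (hB x hx).2.1 (hB x hx).1
    rw [Finset.card_eq_zero.1 hW] at h1
    simp at h1
  | succ m ih =>
    intro W G hW hR
    obtain ⟨B, hB, hdis, htou⟩ := hR
    by_cases h1 : ∃ x ∈ W', B x ≠ {x}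
    · obtain ⟨x, hx, hBx⟩ := h1
      obtain ⟨hxB, hBW, hconn⟩ := hB x hx
      obtain ⟨u, hu, y, hy, hxy⟩ := hconn.2 {x} (Finset.singleton_subset_iff.2 hxB)
        (Finset.singleton_nonempty x) hBx.symm
      rw [Finset.mem_singleton] at hu
      subst hu
      rw [Finset.mem_sdiff, Finset.mem_singleton] at hy
      have hyW : y ∈ W := hBW hy.1
      have hxW : u ∈ W := hBW hxB
      have hother : ∀ z ∈ W', z ≠ u → y ∉ B z := fun z hz hzx hyz =>
        (Finset.disjoint_left.1 (hdis z hz u hx hzx)) hyz hy.1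
      refine PosK.of_ctr hxW hyW hxy (ih (W.erase y) (ctr G u y) ?_ ?_)
      · rw [Finset.card_erase_of_mem hyW]; omega
      · refine ⟨fun z => (B z).erase y, fun z hz => ?_, fun z hz t ht hzt => ?_,
          fun z hz t ht hzt => ?_⟩
        · obtain ⟨hzB, hBzW, hcz⟩ := hB z hz
          refine ⟨Finset.mem_erase.2 ⟨?_, hzB⟩, Finset.erase_subset_erase y hBzW, ?_⟩
          · rintro rfl
            by_cases hzu : z = u
            · exact hy.2 hzu
            · exact hother z hz hzu hzB
          · by_cases hzu : z = u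
            · subst hzu
              refine ⟨⟨z, Finset.mem_erase.2 ⟨fun h => hy.2 h.symm, hzB⟩⟩,
                fun A hA hne hAne => ?_⟩
              by_cases hzA : z ∈ A
              · have hyA : y ∉ A := fun h => (Finset.mem_erase.1 (hA h)).1 rfl
                obtain ⟨p, hp, q, hq, hpq⟩ := hcz.2 (insert y A)
                  (Finset.insert_subset hy.1 (hA.trans (Finset.erase_subset _ _)))
                  (Finset.insert_nonempty _ _) (fun h => hAne (by
                    show A = (B z).erase y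
                    rw [← h, Finset.erase_insert hyA]))
                rw [Finset.mem_sdiff, Finset.mem_insert, not_or] at hq
                rcases Finset.mem_insert.1 hp with rfl | hp
                · exact ⟨z, hzA, q, Finset.mem_sdiff.2 ⟨Finset.mem_erase.2 ⟨hq.2.1, hq.1⟩,
                    hq.2.2⟩, fun h => hq.2.2 (h ▸ hzA), Or.inr (Or.inl ⟨rfl, hpq⟩)⟩
                · exact ⟨p, hp, q, Finset.mem_sdiff.2 ⟨Finset.mem_erase.2 ⟨hq.2.1, hq.1⟩,
                    hq.2.2⟩, hpq.ne, Or.inl hpq⟩
              · have hyA : y ∉ A := fun h => (Finset.mem_erase.1 (hA h)).1 rfl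
                obtain ⟨p, hp, q, hq, hpq⟩ := hcz.2 A (hA.trans (Finset.erase_subset _ _)) hne
                  (fun h => hyA (h ▸ hy.1))
                rw [Finset.mem_sdiff] at hq
                by_cases hqy : q = y
                · subst hqy
                  exact ⟨p, hp, z, Finset.mem_sdiff.2 ⟨Finset.mem_erase.2 ⟨fun h => hy.2 h.symm,
                    hzB⟩, hzA⟩, fun h => hzA (h ▸ hp), Or.inr (Or.inr ⟨rfl, hpq.symm⟩)⟩
                · exact ⟨p, hp, q, Finset.mem_sdiff.2 ⟨Finset.mem_erase.2 ⟨hqy, hq.1⟩, hq.2⟩,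
                    hpq.ne, Or.inl hpq⟩
            · have h2 : (B z).erase y = B z := Finset.erase_eq_of_notMem (hother z hz hzu)
              show Conn (ctr G u y) ((B z).erase y)
              rw [h2]
              exact hcz.mono_graph (fun p _ q _ hpq => ⟨hpq.ne, Or.inl hpq⟩)
        · exact (hdis z hz t ht hzt).mono (Finset.erase_subset _ _) (Finset.erase_subset _ _)
        · have hzt' : z ≠ t := hzt.ne
          obtain ⟨p, hp, q, hq, hpq⟩ := htou z hz t ht hzt
          have hdzt := hdis z hz t ht hzt'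
          by_cases hpy : p = y
          · have hzu : z = u := by
              by_contra h
              exact hother z hz h (hpy ▸ hp)
            have hqy : q ≠ y := fun h => hpq.ne (hpy.trans h.symm)
            refine ⟨u, Finset.mem_erase.2 ⟨fun h => hy.2 h.symm, hzu ▸ (hB z hz).1⟩, q,
              Finset.mem_erase.2 ⟨hqy, hq⟩, ?_, Or.inr (Or.inl ⟨rfl, hpy ▸ hpq⟩)⟩
            rintro rfl
            exact (Finset.disjoint_left.1 hdzt) (hzu ▸ (hB z hz).1) hq
          · by_cases hqy : q = y
            · have htu : t = u := by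
                by_contra h
                exact hother t ht h (hqy ▸ hq)
              refine ⟨p, Finset.mem_erase.2 ⟨hpy, hp⟩, u,
                Finset.mem_erase.2 ⟨fun h => hy.2 h.symm, htu ▸ (hB t ht).1⟩, ?_,
                Or.inr (Or.inr ⟨rfl, (hqy ▸ hpq).symm⟩)⟩
              rintro rfl
              exact (Finset.disjoint_left.1 hdzt) hp (htu ▸ (hB t ht).1)
            · exact ⟨p, Finset.mem_erase.2 ⟨hpy, hp⟩, q, Finset.mem_erase.2 ⟨hqy, hq⟩,
                hpq.ne, Or.inl hpq⟩
    · push Not at h1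
      have hWW : W' ⊆ W := fun x hx => (hB x hx).2.1 (hB x hx).1
      by_cases h2 : W ⊆ W'
      · have h3 : W' = W := Finset.Subset.antisymm hWW h2
        subst h3
        refine ⟨hP.1, Reg.mono (fun i j hij => ?_) hP.2⟩
        refine ⟨hij.1, hij.2.1, hij.2.2.1, fun hh => hij.2.2.2 ?_⟩
        obtain ⟨p, hp, q, hq, hpq⟩ := htou i hij.1 j hij.2.1 hh
        rw [h1 i hij.1, Finset.mem_singleton] at hp
        rw [h1 j hij.2.1, Finset.mem_singleton] at hq
        rwa [hp, hq] at hpq
      · obtain ⟨y, hyW, hyW'⟩ := Finset.not_subset.1 h2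
        refine PosK.of_delete hyW (ih (W.erase y) G ?_ ⟨B, fun z hz => ?_, hdis, htou⟩)
        · rw [Finset.card_erase_of_mem hyW]; omega
        · refine ⟨(hB z hz).1, ?_, (hB z hz).2.2⟩
          rw [h1 z hz, Finset.singleton_subset_iff]
          exact Finset.mem_erase.2 ⟨fun h => hyW' (h ▸ hz), hWW hz⟩


/-- the complement of `G` has a regular representation in dimension `n - (d + 1)`; this gives
`mr₊(G) ≤ n - d` -/
def HasMin (G : SimpleGraph (Fin n)) (d : ℕ) : Prop :=
  d + 1 ≤ n ∧ Reg (coOn Finset.univ G) (n - (d + 1))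

/-- star minors of minimum degree at least `d` -/
theorem hasMin_of_star {G : SimpleGraph (Fin n)} {T L W : Finset (Fin n)} {c : Fin n → Fin n}
    {d : ℕ} (h : IsStar G T L c) (hW : W ⊆ T) (hne : W.Nonempty)
    (hd : ∀ a ∈ W, d ≤ dg (quo G L c) W a) : HasMin G d := by
  classical
  obtain ⟨hdis, hc⟩ := h
  have hWcard : d + 1 ≤ W.card := by
    obtain ⟨a, ha⟩ := hne
    have h1 := hd a ha
    have h2 : nb (quo G L c) W a ⊆ W.erase a := by
      intro w hw
      rw [mem_nb] at hw
      exact Finset.mem_erase.2 ⟨hw.2.1.symm, hw.1⟩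
    have h3 := Finset.card_le_card h2
    rw [Finset.card_erase_of_mem ha] at h3
    have h4 : 0 < W.card := Finset.card_pos.2 ⟨a, ha⟩
    unfold dg at h1
    omega
  have hP : PosK (d + 1) W (quo G L c) := by
    refine ⟨hWcard, ?_⟩
    have key := reg_coOn (quo G L c) W (W.card - (d + 1)) (fun u hu => ?_)
    · exact key
    · have h1 := hd u hu
      have h2 : (W.filter (fun v => ¬ (quo G L c).Adj u v)).card + dg (quo G L c) W u =
          W.card := by
        have h3 := Finset.card_filter_add_card_filter_not (s := W)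
          (fun v => (quo G L c).Adj u v)
        unfold dg
        have h4 : nb (quo G L c) W u = W.filter (fun v => (quo G L c).Adj u v) := by
          ext w; rw [mem_nb, Finset.mem_filter]
        rw [h4]
        omega
      omega
  have hR : RMin G Finset.univ (quo G L c) W := by
    refine ⟨fun a => insert a (L.filter (fun v => c v = a)), fun x hx => ?_,
      fun x hx y hy hxy => ?_, fun x hx y hy hxy => ?_⟩
    · refine ⟨Finset.mem_insert_self _ _, Finset.subset_univ _,
        ⟨x, Finset.mem_insert_self _ _⟩, fun A hA hAne hAB => ?_⟩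
      by_cases hxA : x ∈ A
      · obtain ⟨q, hq, hqA⟩ : ∃ q ∈ insert x (L.filter (fun v => c v = x)), q ∉ A := by
          by_contra hh
          push Not at hh
          exact hAB (Finset.Subset.antisymm hA hh)
        have hqx : q ≠ x := fun h => hqA (h ▸ hxA)
        have hq' := Finset.mem_filter.1 ((Finset.mem_insert.1 hq).resolve_left hqx)
        refine ⟨x, hxA, q, Finset.mem_sdiff.2 ⟨hq, hqA⟩, ?_⟩
        have := (hc q hq'.1).2
        rw [hq'.2] at this
        exact this.symm
      · obtain ⟨p, hp⟩ := hAne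
        have hpx : p ≠ x := fun h => hxA (h ▸ hp)
        have hp' := Finset.mem_filter.1 ((Finset.mem_insert.1 (hA hp)).resolve_left hpx)
        refine ⟨p, hp, x, Finset.mem_sdiff.2 ⟨Finset.mem_insert_self _ _, hxA⟩, ?_⟩
        have := (hc p hp'.1).2
        rwa [hp'.2] at this
    · rw [Finset.disjoint_left]
      intro v hv1 hv2
      rcases Finset.mem_insert.1 hv1 with h1 | h1 <;> rcases Finset.mem_insert.1 hv2 with h2 | h2
      · exact hxy (h1.symm.trans h2)
      · exact (Finset.disjoint_left.1 hdis) (hW hx) (h1 ▸ (Finset.mem_filter.1 h2).1)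
      · exact (Finset.disjoint_left.1 hdis) (hW hy) (h2 ▸ (Finset.mem_filter.1 h1).1)
      · exact hxy ((Finset.mem_filter.1 h1).2.symm.trans (Finset.mem_filter.1 h2).2)
    · obtain ⟨-, u, v, hu, hv, huv⟩ := hxy
      refine ⟨u, ?_, v, ?_, huv⟩
      · rcases hu with h | h
        · exact Finset.mem_insert.2 (Or.inl h)
        · exact Finset.mem_insert.2 (Or.inr (Finset.mem_filter.2 h))
      · rcases hv with h | h
        · exact Finset.mem_insert.2 (Or.inl h)
        · exact Finset.mem_insert.2 (Or.inr (Finset.mem_filter.2 h))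
  have key := PosK.transfer (Nat.succ_le_succ (Nat.zero_le d)) hP n Finset.univ G
    (by rw [Finset.card_univ, Fintype.card_fin]) hR
  obtain ⟨h1, h2⟩ := key
  rw [Finset.card_univ, Fintype.card_fin] at h1 h2
  exact ⟨h1, h2⟩

end Pool.Agent.Lib.MP_a2d8aa_co.Kf
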