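import Pool.Agent.Lib.MP_a2d8aa_co.Kf.Defs

/-!
# KF-Prob (MP_a2d8aa_co)

Expectations under a finite product distribution, `Ex p f = ∑_c (∏_i p_i(c_i)) f(c)`.

Everything follows from `∑_c ∏_i g_i(c_i) = ∏_i ∑_b g_i(b)` (`Finset.prod_univ_sum` with
`Fintype.piFinset_univ`, or `Fintype.sum_pow`-style lemmas; Mathlib: `Finset.prod_univ_sum`).
For a finset `J` of coordinates and `τ : ι → β`, with `g_i(b) = p_i(b) [b = τ i]` for `i ∈ J` and
`g_i = p_i` otherwise, one gets `Ex p (∏_{i ∈ J} [c i = τ i]) = ∏_{i ∈ J} p_i(τ i)` (`ex_ind`).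
Then `ex_eq` by summing over the common value, `ex_eq_eq` by summing over both common values.
-/

set_option autoImplicit false

namespace Pool.Agent.Lib.MP_a2d8aa_co.Kf

variable {ι β : Type*} [Fintype ι] [DecidableEq ι] [Fintype β] [DecidableEq β]

omit [DecidableEq β] in
private theorem sum_prod (g : ι → β → ℝ) :
    ∑ c : ι → β, ∏ i, g i (c i) = ∏ i, ∑ b, g i b := by
  rw [Finset.prod_univ_sum, Fintype.piFinset_univ]

theorem ex_ind (p : ι → β → ℝ) (hp : ∀ i, ∑ b, p i b = 1) (J : Finset ι) (τ : ι → β) :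
    Ex p (fun c => ∏ i ∈ J, if c i = τ i then (1 : ℝ) else 0) = ∏ i ∈ J, p i (τ i) := by
  unfold Ex
  have h1 : ∀ c : ι → β, (∏ i, p i (c i)) * (∏ i ∈ J, if c i = τ i then (1 : ℝ) else 0) =
      ∏ i, (fun (i : ι) (b : β) =>
        p i b * (if i ∈ J then (if b = τ i then (1 : ℝ) else 0) else 1)) i (c i) := by
    intro c
    have h2 : (∏ i ∈ J, if c i = τ i then (1 : ℝ) else 0) =
        ∏ i, (if i ∈ J then (if c i = τ i then (1 : ℝ) else 0) else 1) := by
      rw [Finset.prod_ite_mem, Finset.univ_inter]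
    rw [h2, ← Finset.prod_mul_distrib]
  rw [Finset.sum_congr rfl (fun c _ => h1 c), sum_prod (fun (i : ι) (b : β) =>
        p i b * (if i ∈ J then (if b = τ i then (1 : ℝ) else 0) else 1))]
  have h3 : ∀ i : ι, ∑ b, (fun (i : ι) (b : β) =>
        p i b * (if i ∈ J then (if b = τ i then (1 : ℝ) else 0) else 1)) i b =
      if i ∈ J then p i (τ i) else 1 := by
    intro i
    by_cases hi : i ∈ J
    · simp [hi]
    · simp [hi, hp i]
  rw [Finset.prod_congr rfl (fun i _ => h3 i), Finset.prod_ite_mem, Finset.univ_inter]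

theorem ex_const (p : ι → β → ℝ) (hp : ∀ i, ∑ b, p i b = 1) (a : ℝ) :
    Ex p (fun _ => a) = a := by
  unfold Ex
  rw [← Finset.sum_mul, sum_prod, Finset.prod_congr rfl (fun i _ => hp i)]
  simp

theorem ex_one (p : ι → β → ℝ) (hp : ∀ i, ∑ b, p i b = 1) (i : ι) (b : β) :
    Ex p (fun c => if c i = b then (1 : ℝ) else 0) = p i b := by
  have h := ex_ind p hp {i} (fun _ => b)
  simpa using h

theorem ex_two (p : ι → β → ℝ) (hp : ∀ i, ∑ b, p i b = 1) {i j : ι} (hij : i ≠ j) (b b' : β) :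
    Ex p (fun c => (if c i = b then (1 : ℝ) else 0) * (if c j = b' then 1 else 0)) =
      p i b * p j b' := by
  have h := ex_ind p hp {i, j} (fun k => if k = i then b else b')
  simp only [Finset.prod_pair hij, if_true, if_neg hij.symm] at h
  exact h

theorem ex_sum {κ : Type*} (p : ι → β → ℝ) (s : Finset κ) (f : κ → (ι → β) → ℝ) :
    Ex p (fun c => ∑ x ∈ s, f x c) = ∑ x ∈ s, Ex p (f x) := by
  unfold Ex
  rw [Finset.sum_comm]
  refine Finset.sum_congr rfl (fun c _ => ?_)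
  rw [Finset.mul_sum]

theorem ex_eq (p : ι → β → ℝ) (hp : ∀ i, ∑ b, p i b = 1) {i j : ι} (hij : i ≠ j) :
    Ex p (fun c => if c i = c j then (1 : ℝ) else 0) = ∑ b, p i b * p j b := by
  have h1 : (fun c : ι → β => if c i = c j then (1 : ℝ) else 0) =
      fun c => ∑ b, (if c i = b then (1 : ℝ) else 0) * (if c j = b then 1 else 0) := by
    funext c
    simp [eq_comm]
  rw [h1, ex_sum]
  exact Finset.sum_congr rfl (fun b _ => ex_two p hp hij b b)

private theorem ex_four (p : ι → β → ℝ) (hp : ∀ i, ∑ b, p i b = 1) {i j i' j' : ι} (h1 : i ≠ j)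
    (h2 : i ≠ i') (h3 : i ≠ j') (h4 : j ≠ i') (h5 : j ≠ j') (h6 : i' ≠ j') (b b' : β) :
    Ex p (fun c => ((if c i = b then (1 : ℝ) else 0) * (if c j = b then 1 else 0)) *
      ((if c i' = b' then 1 else 0) * (if c j' = b' then 1 else 0))) =
      (p i b * p j b) * (p i' b' * p j' b') := by
  have h := ex_ind p hp {i, j, i', j'} (fun k => if k = i ∨ k = j then b else b')
  have hA : ∀ f : ι → ℝ, ∏ k ∈ ({i, j, i', j'} : Finset ι), f k =
      (f i * f j) * (f i' * f j') := by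
    intro f
    rw [Finset.prod_insert (by simp [h1, h2, h3]), Finset.prod_insert (by simp [h4, h5]),
      Finset.prod_pair h6]
    ring
  simp only [hA, true_or, or_true, if_true, h2.symm, h3.symm, h4.symm, h5.symm, or_self,
    if_false] at h
  exact h

theorem ex_eq_eq (p : ι → β → ℝ) (hp : ∀ i, ∑ b, p i b = 1) {i j i' j' : ι} (h1 : i ≠ j)
    (h2 : i ≠ i') (h3 : i ≠ j') (h4 : j ≠ i') (h5 : j ≠ j') (h6 : i' ≠ j') :
    Ex p (fun c => if c i = c j ∧ c i' = c j' then (1 : ℝ) else 0) =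
      (∑ b, p i b * p j b) * (∑ b, p i' b * p j' b) := by
  have hA : (fun c : ι → β => if c i = c j ∧ c i' = c j' then (1 : ℝ) else 0) =
      fun c => ∑ x : β × β, ((if c i = x.1 then (1 : ℝ) else 0) * (if c j = x.1 then 1 else 0)) *
        ((if c i' = x.2 then 1 else 0) * (if c j' = x.2 then 1 else 0)) := by
    funext c
    rw [Fintype.sum_prod_type]
    dsimp only
    rw [← Finset.sum_mul_sum Finset.univ Finset.univ
      (fun b : β => (if c i = b then (1 : ℝ) else 0) * (if c j = b then 1 else 0))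
      (fun b : β => (if c i' = b then (1 : ℝ) else 0) * (if c j' = b then 1 else 0))]
    have hB : ∀ u v : ι, ∑ b : β, (if c u = b then (1 : ℝ) else 0) * (if c v = b then 1 else 0) =
        if c u = c v then 1 else 0 := by
      intro u v
      simp [eq_comm]
    rw [hB i j, hB i' j']
    by_cases hu : c i = c j <;> by_cases hv : c i' = c j' <;> simp [hu, hv]
  rw [hA, ex_sum, Fintype.sum_prod_type, Finset.sum_mul_sum]
  refine Finset.sum_congr rfl (fun b _ => Finset.sum_congr rfl (fun b' _ => ?_))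
  exact ex_four p hp h1 h2 h3 h4 h5 h6 b b'

theorem ex_add (p : ι → β → ℝ) (f g : (ι → β) → ℝ) :
    Ex p (fun c => f c + g c) = Ex p f + Ex p g := by
  unfold Ex
  rw [← Finset.sum_add_distrib]
  exact Finset.sum_congr rfl (fun c _ => mul_add _ _ _)

theorem ex_sub (p : ι → β → ℝ) (f g : (ι → β) → ℝ) :
    Ex p (fun c => f c - g c) = Ex p f - Ex p g := by
  unfold Ex
  rw [← Finset.sum_sub_distrib]
  exact Finset.sum_congr rfl (fun c _ => mul_sub _ _ _)

theorem ex_mul_left (p : ι → β → ℝ) (a : ℝ) (f : (ι → β) → ℝ) :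
    Ex p (fun c => a * f c) = a * Ex p f := by
  unfold Ex
  rw [Finset.mul_sum]
  exact Finset.sum_congr rfl (fun c _ => mul_left_comm _ _ _)

theorem ex_mono (p : ι → β → ℝ) (hp0 : ∀ i b, 0 ≤ p i b) {f g : (ι → β) → ℝ}
    (h : ∀ c, (∀ i, 0 < p i (c i)) → f c ≤ g c) : Ex p f ≤ Ex p g := by
  unfold Ex
  refine Finset.sum_le_sum (fun c _ => ?_)
  by_cases hc : ∀ i, 0 < p i (c i)
  · exact mul_le_mul_of_nonneg_left (h c hc) (Finset.prod_nonneg (fun i _ => hp0 i _))
  · push Not at hc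
    obtain ⟨i, hi⟩ := hc
    have h0 : ∏ i, p i (c i) = 0 :=
      Finset.prod_eq_zero (Finset.mem_univ i) (le_antisymm hi (hp0 i _))
    rw [h0, zero_mul, zero_mul]

/-- some `c` in the support has `f c ≤ a` if `Ex p f ≤ a` -/
theorem ex_exists_le (p : ι → β → ℝ) (hp0 : ∀ i b, 0 ≤ p i b) (hp : ∀ i, ∑ b, p i b = 1)
    (f : (ι → β) → ℝ) (a : ℝ) (h : Ex p f ≤ a) : ∃ c, (∀ i, 0 < p i (c i)) ∧ f c ≤ a := by
  by_contra hcon
  push Not at hcon
  have h1 : ∑ c : ι → β, ∏ i, p i (c i) = 1 := by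
    rw [sum_prod, Finset.prod_congr rfl (fun i _ => hp i)]
    simp
  have h2 : ∃ c : ι → β, ∏ i, p i (c i) ≠ 0 := by
    by_contra h3
    push Not at h3
    rw [Finset.sum_congr rfl (fun c _ => h3 c)] at h1
    simp at h1
  obtain ⟨c, hc⟩ := h2
  have hc0 : ∀ i, 0 < p i (c i) := fun i =>
    lt_of_le_of_ne (hp0 i _) (fun h0 => hc (Finset.prod_eq_zero (Finset.mem_univ i) h0.symm))
  have h4 : Ex p (fun _ => a) < Ex p f := by
    unfold Ex
    refine Finset.sum_lt_sum (fun d _ => ?_) ⟨c, Finset.mem_univ c, ?_⟩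
    · by_cases hd : ∀ i, 0 < p i (d i)
      · exact mul_le_mul_of_nonneg_left (hcon d hd).le (Finset.prod_nonneg (fun i _ => hp0 i _))
      · push Not at hd
        obtain ⟨i, hi⟩ := hd
        have h0 : ∏ i, p i (d i) = 0 :=
          Finset.prod_eq_zero (Finset.mem_univ i) (le_antisymm hi (hp0 i _))
        rw [h0, zero_mul, zero_mul]
    · exact mul_lt_mul_of_pos_left (hcon c hc0) (Finset.prod_pos (fun i _ => hc0 i))
  have h5 : Ex p (fun _ => a) = a := by
    unfold Ex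
    rw [← Finset.sum_mul, h1, one_mul]
  linarith

end Pool.Agent.Lib.MP_a2d8aa_co.Kf
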